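import Mathlib
import Pool.Agent.Work.MP_787500_nt.RB.Res
import Pool.Agent.Work.MP_787500_nt.CP.FDefs
import Pool.Agent.Work.MP_787500_nt.ER.FDefs
import Pool.Agent.Work.MP_787500_nt.HP.BKDefs

/-!
# Block RP (definitions, fixed, do not change): two representations with the same residual semisimplification

`G` is an abstract group with an involution `κ`. See `RB/Defs.lean` (`TwForm`, `Ss`, `Irr`, `Good`, `Red`, ...).
-/

set_option autoImplicit false
set_option linter.unusedSectionVars false

namespace Pool.Agent.Work.MP_787500_nt.RP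

open Matrix Module
open Pool.Agent.Work.MP_787500_nt.RB

section rep

variable {G : Type*} [Group G] {k : Type*} [Field k] {V V' : Type*} [AddCommGroup V] [Module k V]
  [AddCommGroup V'] [Module k V']

/-- In the basis `e` with weights `a` the representation preserves the weights, `B` vanishes where the sum of the weights
is negative, and `B₁` is the part of `B` of weight 0, and it is nondegenerate. -/
structure Grd {ι : Type} (ρ : Representation k G V) (B : LinearMap.BilinForm k V) (e : Basis ι k V)
    (a : ι → ℤ) (B₁ : LinearMap.BilinForm k V) : Prop where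
  rep : ∀ g i j, a i ≠ a j → e.repr (ρ g (e j)) i = 0
  neg : ∀ i j, a i + a j < 0 → B (e i) (e j) = 0
  val : ∀ i j, B₁ (e i) (e j) = if a i + a j = 0 then B (e i) (e j) else 0
  nd : ∀ x, (∀ y, B₁ x y = 0) → x = 0

/-- THE RESULT OF THE RESIDUAL PART: graded forms for both representations, and an equivalence of the representations
that is an isometry for the graded forms. -/
def HasPair (ρ : Representation k G V) (B : LinearMap.BilinForm k V) (ρ' : Representation k G V')
    (B' : LinearMap.BilinForm k V') : Prop :=
  ∃ (ι : Type) (_ : Fintype ι) (e : Basis ι k V) (a : ι → ℤ) (B₁ : LinearMap.BilinForm k V)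
    (ι' : Type) (_ : Fintype ι') (e' : Basis ι' k V') (a' : ι' → ℤ) (B₁' : LinearMap.BilinForm k V')
    (φ : V ≃ₗ[k] V'), Grd ρ B e a B₁ ∧ Grd ρ' B' e' a' B₁' ∧ (∀ g x, φ (ρ g x) = ρ' g (φ x)) ∧
      ∀ x y, B₁' (φ x) (φ y) = B₁ x y

end rep

section lat

variable {Ω : Type*} [NormedField Ω] {G : Type*} {n : ℕ}

/-- good bases for two representations, in which the matrices of the representations and of the forms are congruent modulo
the maximal ideal -/
structure GoodP (ρ ρ' : G → Matrix (Fin n) (Fin n) Ω) (b b' A A' B B' : Matrix (Fin n) (Fin n) Ω) :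
    Prop where
  one : Good ρ b A A'
  two : Good ρ' b' B B'
  rep : ∀ g i j, ‖(A' * ρ g * A - B' * ρ' g * B) i j‖ < 1
  form : ∀ i j, ‖(Aᵀ * b * A - Bᵀ * b' * B) i j‖ < 1

end lat

section cj

variable {E : Type*} [NormedField E] {n : ℕ} {G : Type*} [Group G] {A A' : Matrix (Fin n) (Fin n) E}

/-- the representation in the basis given by the columns of `A` -/
def cj (h' : A' * A = 1) (h : A * A' = 1) (ρ : G →* Matrix (Fin n) (Fin n) E) :
    G →* Matrix (Fin n) (Fin n) E where
  toFun g := A' * ρ g * A
  map_one' := by rw [map_one, mul_one, h']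
  map_mul' g k := by
    rw [map_mul]
    calc A' * (ρ g * ρ k) * A = A' * ρ g * 1 * ρ k * A := by noncomm_ring
      _ = A' * ρ g * (A * A') * ρ k * A := by rw [h]
      _ = A' * ρ g * A * (A' * ρ k * A) := by noncomm_ring

theorem cj_apply (h' : A' * A = 1) (h : A * A' = 1) (ρ : G →* Matrix (Fin n) (Fin n) E) (g : G) :
    cj h' h ρ g = A' * ρ g * A := rfl

/-- a space of functions in the coordinates given by the columns of `A` -/
def cjL (A : Matrix (Fin n) (Fin n) E) {X : Type*} (L : Submodule E (X → Fin n → E)) :
    Submodule E (X → Fin n → E) where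
  carrier := {x | (fun t => A *ᵥ x t) ∈ L}
  add_mem' := fun {x y} hx hy => by
    have e : (fun t => A *ᵥ (x + y) t) = (fun t => A *ᵥ x t) + fun t => A *ᵥ y t := by
      funext t
      exact mulVec_add _ _ _
    show (fun t => A *ᵥ (x + y) t) ∈ L
    rw [e]
    exact L.add_mem hx hy
  zero_mem' := by
    have e : (fun t => A *ᵥ (0 : X → Fin n → E) t) = 0 := by
      funext t
      exact mulVec_zero _
    show (fun t => A *ᵥ (0 : X → Fin n → E) t) ∈ L
    rw [e]
    exact L.zero_mem
  smul_mem' := fun c x hx => by
    have e : (fun t => A *ᵥ (c • x) t) = c • fun t => A *ᵥ x t := by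
      funext t
      exact mulVec_smul A c (x t)
    show (fun t => A *ᵥ (c • x) t) ∈ L
    rw [e]
    exact L.smul_mem c hx

theorem mem_cjL {X : Type*} {L : Submodule E (X → Fin n → E)} {x : X → Fin n → E} :
    x ∈ cjL A L ↔ (fun t => A *ᵥ x t) ∈ L := Iff.rfl

end cj

end Pool.Agent.Work.MP_787500_nt.RP
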