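import Mathlib
import Pool.Agent.Work.MP_787500_nt.RP.Defs
import Pool.Agent.Work.MP_787500_nt.RB.Basic

/-!
# RP/Sum (size M, ANYBODY): orthogonal sums

* `grd_sum`: this is what the proof of `RB.hasData_sum` (RB/Glue.lean) does, copy it: `e` = the image of the basis of `X × Y`
  (`(eX.prod eY).map (X.prodEquivOfIsCompl Y hc)`), index type `ι₁ ⊕ ι₂`, weights `Sum.elim aX aY`, `B₁ (x + y) (x' + y') = BX x x' + BY y y'`
  (built from the projections). `neg`, `val` for an index of `X` and one of `Y`: `B` and `B₁` both vanish there (`ho`, symmetric).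
* `hasPair_sum`: `φ` = the sum of the two equivalences.
* `hasPair_zero`: index type `Empty` (or `Fin 0`) on both sides.
* `hasPair_symm`, `eqv_of_pair`: immediate.
-/

set_option autoImplicit false
set_option linter.unusedSectionVars false

namespace Pool.Agent.Work.MP_787500_nt.RP

open Matrix Module
open Pool.Agent.Work.MP_787500_nt.RB

variable {G : Type*} [Group G] {k : Type*} [Field k] {V V' : Type*} [AddCommGroup V] [Module k V]
  [AddCommGroup V'] [Module k V'] {κ : G →* G} {ρ : Representation k G V}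
  {B : LinearMap.BilinForm k V} {ρ' : Representation k G V'} {B' : LinearMap.BilinForm k V'}

private theorem grd_empty {V : Type*} [AddCommGroup V] [Module k V] {ρ : Representation k G V}
    {B : LinearMap.BilinForm k V} (h : ∀ x : V, x = 0) [Subsingleton V] :
    Grd ρ B (Module.Basis.empty (ι := Empty) V) (fun i => i.elim) 0 where
  rep := fun _ i => i.elim
  neg := fun i => i.elim
  val := fun i => i.elim
  nd := fun x _ => h x

theorem hasPair_zero (h : ∀ x : V, x = 0) (h' : ∀ x : V', x = 0) : HasPair ρ B ρ' B' := by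
  have : Subsingleton V := ⟨fun x y => (h x).trans (h y).symm⟩
  have : Subsingleton V' := ⟨fun x y => (h' x).trans (h' y).symm⟩
  refine ⟨Empty, inferInstance, Module.Basis.empty V, fun i => i.elim, 0, Empty, inferInstance,
    Module.Basis.empty V', fun i => i.elim, 0, LinearEquiv.ofSubsingleton V V', grd_empty h,
    grd_empty h', fun g x => Subsingleton.elim _ _, fun x y => rfl⟩

theorem grd_sum (hB : TwForm κ ρ B) {X Y : Submodule k V} (hX : Stab ρ X) (hY : Stab ρ Y)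
    (hc : IsCompl X Y) (ho : ∀ x ∈ X, ∀ y ∈ Y, B x y = 0) {ι₁ ι₂ : Type} {eX : Basis ι₁ k X}
    {eY : Basis ι₂ k Y} {aX : ι₁ → ℤ} {aY : ι₂ → ℤ} {BX : LinearMap.BilinForm k X}
    {BY : LinearMap.BilinForm k Y} (h1 : Grd (sub ρ X hX) (B.restrict X) eX aX BX)
    (h2 : Grd (sub ρ Y hY) (B.restrict Y) eY aY BY) :
    ∃ (e : Basis (ι₁ ⊕ ι₂) k V) (a : ι₁ ⊕ ι₂ → ℤ) (B₁ : LinearMap.BilinForm k V),
      Grd ρ B e a B₁ ∧ ∀ (x x' : X) (y y' : Y),
        B₁ ((x : V) + y) ((x' : V) + y') = BX x x' + BY y y' := by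
  obtain ⟨p1, p2, p3, p4⟩ := h1
  obtain ⟨q1, q2, q3, q4⟩ := h2
  set P : (X × Y) ≃ₗ[k] V := X.prodEquivOfIsCompl Y hc with hP
  have hPa : ∀ (x : X) (y : Y), P (x, y) = (x : V) + y := fun x y => rfl
  have hρ : ∀ (g : G) (x : X) (y : Y), ρ g (P (x, y)) = P (sub ρ X hX g x, sub ρ Y hY g y) := by
    intro g x y
    rw [hPa, hPa, map_add]
    rfl
  have hs : ∀ z : V, ∃ (x : X) (y : Y), z = P (x, y) := by
    intro z
    obtain ⟨⟨x, y⟩, rfl⟩ := P.surjective z
    exact ⟨x, y, rfl⟩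
  let fx : V →ₗ[k] X := (LinearMap.fst k X Y).comp P.symm.toLinearMap
  let fy : V →ₗ[k] Y := (LinearMap.snd k X Y).comp P.symm.toLinearMap
  have hfx : ∀ x y, fx (P (x, y)) = x := by
    intro x y
    change (P.symm (P (x, y))).1 = x
    rw [LinearEquiv.symm_apply_apply]
  have hfy : ∀ x y, fy (P (x, y)) = y := by
    intro x y
    change (P.symm (P (x, y))).2 = y
    rw [LinearEquiv.symm_apply_apply]
  let B₁ : LinearMap.BilinForm k V := BX.compl₁₂ fx fx + BY.compl₁₂ fy fy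
  have hB₁ : ∀ x y x' y', B₁ (P (x, y)) (P (x', y')) = BX x x' + BY y y' := by
    intro x y x' y'
    change BX (fx (P (x, y))) (fx (P (x', y'))) + BY (fy (P (x, y))) (fy (P (x', y'))) = _
    rw [hfx, hfx, hfy, hfy]
  let e : Module.Basis (ι₁ ⊕ ι₂) k V := (eX.prod eY).map P
  have he1 : ∀ i, e (Sum.inl i) = P (eX i, 0) := by
    intro i
    change P ((eX.prod eY) (Sum.inl i)) = _
    rw [Module.Basis.prod_apply]
    rfl
  have he2 : ∀ i, e (Sum.inr i) = P (0, eY i) := by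
    intro i
    change P ((eX.prod eY) (Sum.inr i)) = _
    rw [Module.Basis.prod_apply]
    rfl
  have hr : ∀ z, e.repr (P z) = (eX.prod eY).repr z := by
    intro z
    change (eX.prod eY).repr (P.symm (P z)) = _
    rw [LinearEquiv.symm_apply_apply]
  have hr1 : ∀ x y i, e.repr (P (x, y)) (Sum.inl i) = eX.repr x i := by
    intro x y i
    rw [hr, Module.Basis.prod_repr_inl]
  have hr2 : ∀ x y i, e.repr (P (x, y)) (Sum.inr i) = eY.repr y i := by
    intro x y i
    rw [hr, Module.Basis.prod_repr_inr]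
  have hBxy : ∀ (x : X) (y : Y), B (P (x, 0)) (P (0, y)) = 0 := by
    intro x y
    rw [hPa, hPa]
    simp only [ZeroMemClass.coe_zero, add_zero, zero_add]
    exact ho x x.2 y y.2
  have hByx : ∀ (x : X) (y : Y), B (P (0, y)) (P (x, 0)) = 0 := by
    intro x y
    rw [hB.symm, hBxy]
  have hBx : ∀ x x' : X, B (P (x, 0)) (P (x', 0)) = B.restrict X x x' := by
    intro x x'
    rw [hPa, hPa]
    simp only [ZeroMemClass.coe_zero, add_zero]
    rfl
  have hBy : ∀ y y' : Y, B (P (0, y)) (P (0, y')) = B.restrict Y y y' := by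
    intro y y'
    rw [hPa, hPa]
    simp only [ZeroMemClass.coe_zero, zero_add]
    rfl
  refine ⟨e, Sum.elim aX aY, B₁, ⟨?_, ?_, ?_, ?_⟩, ?_⟩
  · rintro g (i | i) (j | j) hij
    · rw [he1, hρ, hr1]
      exact p1 g i j hij
    · rw [he2, hρ, hr1, map_zero, map_zero]
      rfl
    · rw [he1, hρ, hr2, map_zero, map_zero]
      rfl
    · rw [he2, hρ, hr2]
      exact q1 g i j hij
  · rintro (i | i) (j | j) hij
    · rw [he1, he1, hBx]
      exact p2 i j hij
    · rw [he1, he2, hBxy]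
    · rw [he1, he2, hByx]
    · rw [he2, he2, hBy]
      exact q2 i j hij
  · rintro (i | i) (j | j)
    · rw [he1, he1, hBx, hB₁, map_zero, add_zero]
      exact p3 i j
    · rw [he1, he2, hBxy, hB₁, map_zero, map_zero, LinearMap.zero_apply, add_zero, ite_self]
    · rw [he1, he2, hByx, hB₁, map_zero, map_zero, LinearMap.zero_apply, add_zero, ite_self]
    · rw [he2, he2, hBy, hB₁, map_zero, zero_add]
      exact q3 i j
  · intro z hz
    obtain ⟨x, y, rfl⟩ := hs z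
    have hx : x = 0 := p4 x fun x' => by
      have h3 := hz (P (x', 0))
      rwa [hB₁, map_zero, add_zero] at h3
    have hy : y = 0 := q4 y fun y' => by
      have h3 := hz (P (0, y'))
      rwa [hB₁, map_zero, zero_add] at h3
    rw [hx, hy]
    exact map_zero P
  · intro x x' y y'
    rw [← hPa, ← hPa, hB₁]

theorem hasPair_sum (hB : TwForm κ ρ B) (hB' : TwForm κ ρ' B') {X Y : Submodule k V}
    {X' Y' : Submodule k V'} (hX : Stab ρ X) (hY : Stab ρ Y) (hX' : Stab ρ' X') (hY' : Stab ρ' Y')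
    (hc : IsCompl X Y) (hc' : IsCompl X' Y') (ho : ∀ x ∈ X, ∀ y ∈ Y, B x y = 0)
    (ho' : ∀ x ∈ X', ∀ y ∈ Y', B' x y = 0)
    (h1 : HasPair (sub ρ X hX) (B.restrict X) (sub ρ' X' hX') (B'.restrict X'))
    (h2 : HasPair (sub ρ Y hY) (B.restrict Y) (sub ρ' Y' hY') (B'.restrict Y')) :
    HasPair ρ B ρ' B' := by
  obtain ⟨ι₁, _, e₁, a₁, B₁, ι₁', _, e₁', a₁', B₁', φ₁, p1, p2, p3, p4⟩ := h1
  obtain ⟨ι₂, _, e₂, a₂, B₂, ι₂', _, e₂', a₂', B₂', φ₂, q1, q2, q3, q4⟩ := h2
  obtain ⟨e, a, C, hg, hC⟩ := grd_sum hB hX hY hc ho p1 q1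
  obtain ⟨e', a', C', hg', hC'⟩ := grd_sum hB' hX' hY' hc' ho' p2 q2
  let P : (X × Y) ≃ₗ[k] V := X.prodEquivOfIsCompl Y hc
  let P' : (X' × Y') ≃ₗ[k] V' := X'.prodEquivOfIsCompl Y' hc'
  have hPa : ∀ (x : X) (y : Y), P (x, y) = (x : V) + y := fun x y => rfl
  have hPa' : ∀ (x : X') (y : Y'), P' (x, y) = (x : V') + y := fun x y => rfl
  let φ : V ≃ₗ[k] V' := (P.symm.trans (φ₁.prodCongr φ₂)).trans P'
  have hφ : ∀ (x : X) (y : Y), φ (P (x, y)) = P' (φ₁ x, φ₂ y) := by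
    intro x y
    change P' ((φ₁.prodCongr φ₂) (P.symm (P (x, y)))) = _
    rw [LinearEquiv.symm_apply_apply]
    rfl
  have hρ : ∀ (g : G) (x : X) (y : Y), ρ g (P (x, y)) = P (sub ρ X hX g x, sub ρ Y hY g y) := by
    intro g x y
    rw [hPa, hPa, map_add]
    rfl
  have hρ' : ∀ (g : G) (x : X') (y : Y'),
      ρ' g (P' (x, y)) = P' (sub ρ' X' hX' g x, sub ρ' Y' hY' g y) := by
    intro g x y
    rw [hPa', hPa', map_add]
    rfl
  refine ⟨ι₁ ⊕ ι₂, inferInstance, e, a, C, ι₁' ⊕ ι₂', inferInstance, e', a', C', φ, hg, hg',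
    fun g z => ?_, fun z z' => ?_⟩
  · obtain ⟨⟨x, y⟩, rfl⟩ := P.surjective z
    rw [hρ, hφ, hφ, hρ', p3, q3]
  · obtain ⟨⟨x, y⟩, rfl⟩ := P.surjective z
    obtain ⟨⟨x', y'⟩, rfl⟩ := P.surjective z'
    rw [hφ, hφ, hPa, hPa, hPa', hPa', hC, hC', p4, q4]

theorem hasPair_symm (h : HasPair ρ B ρ' B') : HasPair ρ' B' ρ B := by
  obtain ⟨ι, _, e, a, B₁, ι', _, e', a', B₁', φ, h1, h2, h3, h4⟩ := h
  refine ⟨ι', inferInstance, e', a', B₁', ι, inferInstance, e, a, B₁, φ.symm, h2, h1,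
    fun g x => ?_, fun x y => ?_⟩
  · rw [LinearEquiv.symm_apply_eq, h3, LinearEquiv.apply_symm_apply]
  · rw [← h4, LinearEquiv.apply_symm_apply, LinearEquiv.apply_symm_apply]

theorem eqv_of_pair (h : HasPair ρ B ρ' B') : Eqv ρ ρ' := by
  obtain ⟨ι, _, e, a, B₁, ι', _, e', a', B₁', φ, h1, h2, h3, h4⟩ := h
  exact ⟨φ, h3⟩

end Pool.Agent.Work.MP_787500_nt.RP
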