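import Mathlib
import Pool.Agent.Work.MP_787500_nt.RP.Defs
import Pool.Agent.Work.MP_787500_nt.RB.Res
import Pool.Agent.Work.MP_787500_nt.RB.Om

/-!
# RP/Down (size S-M): from `Ω` to a finite extension of `E` (model: `RB.exists_down` in RB/Down.lean, proved; its private `down_field` can
be copied)

The finite set of all entries of `A`, `A'`, `B`, `B'`; all conditions of `GoodP` are equalities or norm conditions that can be checked in `Ω`
(`j` injective, norm preserving, `Matrix.map_mul`, `Matrix.map_sub`, `RingHom.map_det`).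
-/

set_option autoImplicit false
set_option linter.unusedSectionVars false

namespace Pool.Agent.Work.MP_787500_nt.RP

open Matrix Module
open Pool.Agent.Work.MP_787500_nt.RB
open Pool.Agent.Work.MP_787500_nt.LX (mapRep)

universe v

private theorem down_field {E : Type v} [NormedField E]
    [NormedAlgebra ℚ_[2] E] [FiniteDimensional ℚ_[2] E] {Ω : Type v} [NormedField Ω]
    [NormedAlgebra ℚ_[2] Ω] [Algebra.IsAlgebraic ℚ_[2] Ω] (ι : E →ₐ[ℚ_[2]] Ω) (S : Set Ω)
    (hS : S.Finite) : ∃ (E' : Type v) (_ : NormedField E') (_ : NormedAlgebra ℚ_[2] E')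
      (_ : FiniteDimensional ℚ_[2] E') (ι' : E →ₐ[ℚ_[2]] E') (j : E' →ₐ[ℚ_[2]] Ω),
      (∀ x, ‖j x‖ = ‖x‖) ∧ (∀ x, j (ι' x) = ι x) ∧ ∀ x ∈ S, ∃ y, j y = x := by
  have hfin : Finite S := hS
  have h1 : FiniteDimensional ℚ_[2] (IntermediateField.adjoin ℚ_[2] S) :=
    IntermediateField.finiteDimensional_adjoin fun x _ =>
      (Algebra.IsAlgebraic.isAlgebraic x).isIntegral
  have h2 : FiniteDimensional ℚ_[2] ι.fieldRange :=
    Module.Finite.of_surjective (M := E) (ι.rangeRestrict.toLinearMap : E →ₗ[ℚ_[2]] ι.range)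
      ι.rangeRestrict_surjective
  let F : IntermediateField ℚ_[2] Ω := ι.fieldRange ⊔ IntermediateField.adjoin ℚ_[2] S
  have h3 : FiniteDimensional ℚ_[2] F := IntermediateField.finiteDimensional_sup _ _
  have h4 : ∀ x, ι x ∈ F.toSubalgebra := fun x =>
    (le_sup_left : ι.fieldRange ≤ F) ⟨x, rfl⟩
  refine ⟨F, inferInstance, inferInstance, h3, ι.codRestrict F.toSubalgebra h4, F.val,
    fun x => rfl, fun x => rfl, fun x hx => ?_⟩
  exact ⟨⟨x, (le_sup_right : IntermediateField.adjoin ℚ_[2] S ≤ F)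
    (IntermediateField.subset_adjoin _ _ hx)⟩, rfl⟩

theorem exists_downP {G : Type*} [Group G] {E : Type v} [NormedField E]
    [NormedAlgebra ℚ_[2] E] [FiniteDimensional ℚ_[2] E] {n : ℕ}
    {ρ ρ' : G →* Matrix (Fin n) (Fin n) E} {b b' : Matrix (Fin n) (Fin n) E} {Ω : Type v}
    [NormedField Ω] [NormedAlgebra ℚ_[2] Ω] [Algebra.IsAlgebraic ℚ_[2] Ω] (ι : E →ₐ[ℚ_[2]] Ω)
    {A A' B B' : Matrix (Fin n) (Fin n) Ω}
    (h : GoodP (fun g => (ρ g).map ι) (fun g => (ρ' g).map ι) (b.map ι) (b'.map ι) A A' B B') :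
    ∃ (E' : Type v) (_ : NormedField E') (_ : NormedAlgebra ℚ_[2] E')
      (_ : FiniteDimensional ℚ_[2] E') (ι' : E →ₐ[ℚ_[2]] E')
      (A₁ A₁' B₁ B₁' : Matrix (Fin n) (Fin n) E'),
      GoodP (fun g => mapRep ι' ρ g) (fun g => mapRep ι' ρ' g) (b.map ι') (b'.map ι') A₁ A₁' B₁
        B₁' := by
  obtain ⟨E', i1, i2, i3, ι', j, hj, hjι, hS⟩ := down_field ι
    ((Set.range (fun x : Fin n × Fin n => A x.1 x.2) ∪ Set.range (fun x : Fin n × Fin n =>
      A' x.1 x.2)) ∪ (Set.range (fun x : Fin n × Fin n => B x.1 x.2) ∪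
      Set.range (fun x : Fin n × Fin n => B' x.1 x.2)))
    (((Set.finite_range _).union (Set.finite_range _)).union
      ((Set.finite_range _).union (Set.finite_range _)))
  have hA : ∀ x y, ∃ z, j z = A x y := fun x y => hS _ (Or.inl (Or.inl ⟨(x, y), rfl⟩))
  have hA' : ∀ x y, ∃ z, j z = A' x y := fun x y => hS _ (Or.inl (Or.inr ⟨(x, y), rfl⟩))
  have hB : ∀ x y, ∃ z, j z = B x y := fun x y => hS _ (Or.inr (Or.inl ⟨(x, y), rfl⟩))
  have hB' : ∀ x y, ∃ z, j z = B' x y := fun x y => hS _ (Or.inr (Or.inr ⟨(x, y), rfl⟩))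
  choose A₁ hA₁ using hA
  choose A₁' hA₁' using hA'
  choose B₁ hB₁ using hB
  choose B₁' hB₁' using hB'
  have eA : (Matrix.of A₁).map j = A := by
    ext x y
    exact hA₁ x y
  have eA' : (Matrix.of A₁').map j = A' := by
    ext x y
    exact hA₁' x y
  have eB : (Matrix.of B₁).map j = B := by
    ext x y
    exact hB₁ x y
  have eB' : (Matrix.of B₁').map j = B' := by
    ext x y
    exact hB₁' x y
  have eb : (b.map ι').map j = b.map ι := by
    ext x y
    exact hjι _
  have eb' : (b'.map ι').map j = b'.map ι := by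
    ext x y
    exact hjι _
  have er : ∀ g, (mapRep ι' ρ g).map j = (ρ g).map ι := by
    intro g
    ext x y
    exact hjι _
  have er' : ∀ g, (mapRep ι' ρ' g).map j = (ρ' g).map ι := by
    intro g
    ext x y
    exact hjι _
  have hinj : Function.Injective (fun M : Matrix (Fin n) (Fin n) E' => M.map j) :=
    Matrix.map_injective j.injective
  have hmul : ∀ M N : Matrix (Fin n) (Fin n) E', (M * N).map j = M.map j * N.map j :=
    fun M N => Matrix.map_mul
  have hone : (1 : Matrix (Fin n) (Fin n) E').map j = 1 := Matrix.map_one _ (map_zero j) (map_one j)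
  have hsub : ∀ M N : Matrix (Fin n) (Fin n) E', (M - N).map j = M.map j - N.map j := by
    intro M N
    ext x y
    exact map_sub j _ _
  have htr : ∀ M : Matrix (Fin n) (Fin n) E', Mᵀ.map j = (M.map j)ᵀ := fun M => rfl
  have hnorm : ∀ (M : Matrix (Fin n) (Fin n) E') (x y : Fin n), ‖M x y‖ = ‖(M.map j) x y‖ :=
    fun M x y => (hj _).symm
  have hdet : ∀ M : Matrix (Fin n) (Fin n) E', ‖M.det‖ = ‖(M.map j).det‖ := by
    intro M
    rw [← hj]
    exact congrArg _ ((j : E' →+* Ω).map_det M)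
  refine ⟨E', i1, i2, i3, ι', Matrix.of A₁, Matrix.of A₁', Matrix.of B₁, Matrix.of B₁', ?_⟩
  constructor
  · constructor
    · apply hinj
      show (_ : Matrix (Fin n) (Fin n) E').map j = (1 : Matrix (Fin n) (Fin n) E').map j
      rw [hmul, eA, eA', hone]
      exact h.one.inv
    · apply hinj
      show (_ : Matrix (Fin n) (Fin n) E').map j = (1 : Matrix (Fin n) (Fin n) E').map j
      rw [hmul, eA, eA', hone]
      exact h.one.inv'
    · intro g x y
      rw [hnorm, hmul, hmul, eA, eA', er]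
      exact h.one.st g x y
    · intro x y
      rw [hnorm, hmul, hmul, htr, eA, eb]
      exact h.one.un x y
    · rw [hdet, hmul, hmul, htr, eA, eb]
      exact h.one.det
  · constructor
    · apply hinj
      show (_ : Matrix (Fin n) (Fin n) E').map j = (1 : Matrix (Fin n) (Fin n) E').map j
      rw [hmul, eB, eB', hone]
      exact h.two.inv
    · apply hinj
      show (_ : Matrix (Fin n) (Fin n) E').map j = (1 : Matrix (Fin n) (Fin n) E').map j
      rw [hmul, eB, eB', hone]
      exact h.two.inv'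
    · intro g x y
      rw [hnorm, hmul, hmul, eB, eB', er']
      exact h.two.st g x y
    · intro x y
      rw [hnorm, hmul, hmul, htr, eB, eb']
      exact h.two.un x y
    · rw [hdet, hmul, hmul, htr, eB, eb']
      exact h.two.det
  · intro g x y
    rw [hnorm, hsub, hmul, hmul, hmul, hmul, eA, eA', eB, eB', er, er']
    exact h.rep g x y
  · intro x y
    rw [hnorm, hsub, hmul, hmul, hmul, hmul, htr, htr, eA, eB, eb, eb']
    exact h.form x y

end Pool.Agent.Work.MP_787500_nt.RP
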