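import Mathlib
import Pool.Agent.Work.MP_787500_nt.RP.Defs
import Pool.Agent.Work.MP_787500_nt.RB.Basic
import Pool.Agent.Work.MP_787500_nt.RB.Res
import Pool.Agent.Work.MP_787500_nt.RB.Lat

/-!
# RP/OfPair (size M): from `HasPair` of the residual representations to congruent good bases (model: RB/OfData.lean, proved)

As in RB/OfData (`of_fin`): reindex the bases by `Fin n` (`e : Basis (Fin n) k (Fin n → k)`), `P` = the matrix with columns `e_j`, `P'` its inverse;
`exists_lat` gives a good basis `A₁` for `(ρ, b)` with `resR = grM a (P' * R g * P) = toMatrix e e (toRep R g)` and residual form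
`grB a (Pᵀ * F * P) = BilinForm.toMatrix e B₁`. The same for `(ρ', b')` with `e'`, `B₁'`: a good basis `A₂`. Let `Φ` = `LinearMap.toMatrix e e' φ`,
invertible. Apply `exists_lat` a second time, to the good basis `A₂`, with `P := Φ`, `P' := Φ⁻¹` and all weights 0 (`grM 0 M = M`,
`grB 0 M = M`; `h1`, `h2` are vacuous, `h3`: a determinant of a product of invertible matrices): the new residual representation is
`Φ⁻¹ * toMatrix e' e' (ρ' g) * Φ = toMatrix e e (φ⁻¹ ρ' g φ) = toMatrix e e (ρ g)`, and the new residual form is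
`Φᵀ * toMatrix e' B₁' * Φ = toMatrix e (B₁' (φ ·) (φ ·)) = toMatrix e B₁`.
Last assertion: entries with the same residue differ by an element of norm `< 1` (`hr.zero`, `hr.add`; `rd (-x) = - rd x`).
-/

set_option autoImplicit false
set_option linter.unusedSectionVars false

namespace Pool.Agent.Work.MP_787500_nt.RP

open Matrix Module
open Pool.Agent.Work.MP_787500_nt.RB

section aux

variable {Ω : Type*} [NormedField Ω] [NormedAlgebra ℚ_[2] Ω] {k : Type*} [Field k] {rd : Ω → k}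

private theorem norm_sub_lt (hr : Red rd) {x y : Ω} (hx : ‖x‖ ≤ 1) (hy : ‖y‖ ≤ 1)
    (h : rd x = rd y) : ‖x - y‖ < 1 := by
  have hu := Gn.ultra 2 Ω
  have hxy : ‖x - y‖ ≤ 1 := by
    rw [sub_eq_add_neg]
    refine (IsUltrametricDist.norm_add_le_max _ _).trans (max_le hx ?_)
    rw [norm_neg]
    exact hy
  have h1 := hr.add (x - y) y hxy hy
  rw [sub_add_cancel, h] at h1
  exact (hr.zero _ hxy).1 (left_eq_add.1 (by rw [add_comm]; exact h1))

private theorem rd_eq (hr : Red rd) {x y : Ω} (hx : ‖x‖ ≤ 1) (hxy : ‖x - y‖ < 1) :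
    rd x = rd y := by
  have hu := Gn.ultra 2 Ω
  have hy : ‖y‖ ≤ 1 := by
    have h1 : y = x + (y - x) := by ring
    rw [h1]
    refine (IsUltrametricDist.norm_add_le_max _ _).trans (max_le hx ?_)
    rw [← norm_neg, neg_sub]
    exact hxy.le
  have h2 := hr.add (x - y) y hxy.le hy
  rw [sub_add_cancel, (hr.zero _ hxy.le).2 hxy, zero_add] at h2
  exact h2

private def O (Ω : Type*) [NormedField Ω] [NormedAlgebra ℚ_[2] Ω] : Subring Ω where
  carrier := {x | ‖x‖ ≤ 1}
  mul_mem' {x y} hx hy := by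
    show ‖x * y‖ ≤ 1
    rw [norm_mul]
    exact mul_le_one₀ hx (norm_nonneg _) hy
  one_mem' := by
    show ‖(1 : Ω)‖ ≤ 1
    simp
  add_mem' {x y} hx hy := by
    have hu := Gn.ultra 2 Ω
    exact (IsUltrametricDist.norm_add_le_max _ _).trans (max_le hx hy)
  zero_mem' := by
    show ‖(0 : Ω)‖ ≤ 1
    simp
  neg_mem' {x} hx := by
    show ‖-x‖ ≤ 1
    rw [norm_neg]
    exact hx

private def rdO (hr : Red rd) : O Ω →+* k where
  toFun x := rd x
  map_one' := hr.one
  map_mul' x y := hr.mul _ _ x.2 y.2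
  map_zero' := hr.map_zero
  map_add' x y := hr.add _ _ x.2 y.2

private theorem lift_mat {n : ℕ} {M : Matrix (Fin n) (Fin n) Ω} (hM : Int M) :
    ∃ N : Matrix (Fin n) (Fin n) (O Ω), N.map (O Ω).subtype = M ∧
      ∀ hr : Red rd, N.map (rdO hr) = M.map rd :=
  ⟨Matrix.of fun i j => ⟨M i j, hM i j⟩, rfl, fun _ => rfl⟩

private theorem coeff_red (hr : Red rd) {n : ℕ} {M : Matrix (Fin n) (Fin n) Ω} (hM : Int M)
    (i : ℕ) :
    ‖M.charpoly.coeff i‖ ≤ 1 ∧ (M.map rd).charpoly.coeff i = rd (M.charpoly.coeff i) := by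
  obtain ⟨N, rfl, h2⟩ := lift_mat (rd := rd) hM
  have h3 : (N.map (O Ω).subtype).charpoly.coeff i = (O Ω).subtype (N.charpoly.coeff i) := by
    rw [Matrix.charpoly_map, Polynomial.coeff_map]
  have h4 : (N.map (rdO hr)).charpoly.coeff i = rdO hr (N.charpoly.coeff i) := by
    rw [Matrix.charpoly_map, Polynomial.coeff_map]
  rw [h3]
  refine ⟨(N.charpoly.coeff i).2, ?_⟩
  rw [← h2 hr, h4]
  rfl

end aux

section grd

variable {Ω : Type*} [NormedField Ω] [NormedAlgebra ℚ_[2] Ω] [IsAlgClosed Ω] {k : Type*} [Field k]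
  {rd : Ω → k} {G : Type*} [Group G] {n : ℕ} {ρ : G →* Matrix (Fin n) (Fin n) Ω}
  {b A A' : Matrix (Fin n) (Fin n) Ω}

private theorem of_grd_fin (hr : Red rd) (hd : Disc (fun g => ρ g))
    (h : Good (fun g => ρ g) b A A') (e : Basis (Fin n) k (Fin n → k)) (a : Fin n → ℤ)
    (B' : LinearMap.BilinForm k (Fin n → k))
    (h1 : ∀ g i j, a i ≠ a j → e.repr (toRep (resR hr h) g (e j)) i = 0)
    (h2 : ∀ i j, a i + a j < 0 → Matrix.toBilin' ((Aᵀ * b * A).map rd) (e i) (e j) = 0)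
    (h3 : ∀ i j, B' (e i) (e j) =
      if a i + a j = 0 then Matrix.toBilin' ((Aᵀ * b * A).map rd) (e i) (e j) else 0)
    (h4 : ∀ x, (∀ y, B' x y = 0) → x = 0) :
    ∃ (A₁ A₁' : Matrix (Fin n) (Fin n) Ω) (h' : Good (fun g => ρ g) b A₁ A₁'),
      (∀ g, resR hr h' g = LinearMap.toMatrix e e (toRep (resR hr h) g)) ∧
        (A₁ᵀ * b * A₁).map rd = LinearMap.BilinForm.toMatrix e B' := by
  classical
  set F := (Aᵀ * b * A).map rd with hF
  set P := (Pi.basisFun k (Fin n)).toMatrix e with hP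
  set P' := e.toMatrix (Pi.basisFun k (Fin n)) with hP'
  have hPP : P * P' = 1 := Basis.toMatrix_mul_toMatrix_flip _ _
  have hR : ∀ g, P' * resR hr h g * P = LinearMap.toMatrix e e (toRep (resR hr h) g) := by
    intro g
    rw [← basis_toMatrix_mul_linearMap_toMatrix_mul_basis_toMatrix e (Pi.basisFun k (Fin n)) e
      (Pi.basisFun k (Fin n)), LinearMap.toMatrix_eq_toMatrix']
    congr 2
    exact (LinearMap.toMatrix'_toLin' _).symm
  have hFF : Pᵀ * F * P = LinearMap.BilinForm.toMatrix e (Matrix.toBilin' F) := by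
    rw [← LinearMap.BilinForm.toMatrix_mul_basis_toMatrix (Pi.basisFun k (Fin n)) e,
      LinearMap.BilinForm.toMatrix_basisFun, LinearMap.BilinForm.toMatrix'_toBilin']
  have hgr : ∀ g, grM a (P' * resR hr h g * P) =
      LinearMap.toMatrix e e (toRep (resR hr h) g) := by
    intro g
    rw [hR]
    ext i j
    rw [grM]
    split_ifs with hij
    · rfl
    · rw [LinearMap.toMatrix_apply, h1 g i j hij]
  have hgB : grB a (Pᵀ * F * P) = LinearMap.BilinForm.toMatrix e B' := by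
    rw [hFF]
    ext i j
    rw [grB, LinearMap.BilinForm.toMatrix_apply, LinearMap.BilinForm.toMatrix_apply, h3]
  have hdet : (grB a (Pᵀ * F * P)).det ≠ 0 := by
    rw [hgB]
    exact (LinearMap.BilinForm.nondegenerate_iff_det_ne_zero e).1
      (LinearMap.BilinForm.Nondegenerate.ofSeparatingLeft h4)
  obtain ⟨A₁, A₁', h', h8, h9⟩ := exists_lat hr hd h hPP a
    (fun g i j hij => by rw [hR, LinearMap.toMatrix_apply, h1 g i j hij.ne'])
    (fun i j hij => by rw [hFF, LinearMap.BilinForm.toMatrix_apply, h2 i j hij]) hdet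
  exact ⟨A₁, A₁', h', fun g => by rw [h8, hgr], by rw [h9, hgB]⟩

private theorem of_grd (hr : Red rd) (hd : Disc (fun g => ρ g)) (h : Good (fun g => ρ g) b A A')
    {ι : Type} [Fintype ι] {e : Basis ι k (Fin n → k)} {a : ι → ℤ}
    {B' : LinearMap.BilinForm k (Fin n → k)}
    (hG : Grd (toRep (resR hr h)) (Matrix.toBilin' ((Aᵀ * b * A).map rd)) e a B') :
    ∃ (e' : Basis (Fin n) k (Fin n → k)) (A₁ A₁' : Matrix (Fin n) (Fin n) Ω)
      (h' : Good (fun g => ρ g) b A₁ A₁'),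
      (∀ g, resR hr h' g = LinearMap.toMatrix e' e' (toRep (resR hr h) g)) ∧
        (A₁ᵀ * b * A₁).map rd = LinearMap.BilinForm.toMatrix e' B' := by
  obtain ⟨h1, h2, h3, h4⟩ := hG
  have hc : Fintype.card ι = n := by
    rw [← Module.finrank_eq_card_basis e, Module.finrank_fin_fun]
  let q : ι ≃ Fin n := Fintype.equivFinOfCardEq hc
  refine ⟨e.reindex q, of_grd_fin hr hd h (e.reindex q) (a ∘ q.symm) B' ?_ ?_ ?_ h4⟩
  · intro g i j hij
    rw [Basis.reindex_apply, Basis.repr_reindex_apply]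
    exact h1 g _ _ hij
  · intro i j hij
    rw [Basis.reindex_apply, Basis.reindex_apply]
    exact h2 _ _ hij
  · intro i j
    rw [Basis.reindex_apply, Basis.reindex_apply]
    exact h3 _ _

end grd

variable {Ω : Type*} [NormedField Ω] [NormedAlgebra ℚ_[2] Ω] [IsAlgClosed Ω] {k : Type*} [Field k]
  {rd : Ω → k} {G : Type*} [Group G] {n : ℕ} {ρ ρ' : G →* Matrix (Fin n) (Fin n) Ω}
  {b b' A A' B B' : Matrix (Fin n) (Fin n) Ω}

theorem exists_of_pair (hr : Red rd) (hd : Disc (fun g => ρ g)) (hd' : Disc (fun g => ρ' g))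
    (h : Good (fun g => ρ g) b A A') (h' : Good (fun g => ρ' g) b' B B')
    (hP : HasPair (toRep (resR hr h)) (Matrix.toBilin' ((Aᵀ * b * A).map rd)) (toRep (resR hr h'))
      (Matrix.toBilin' ((Bᵀ * b' * B).map rd))) :
    ∃ A₁ A₁' B₁ B₁' : Matrix (Fin n) (Fin n) Ω,
      GoodP (fun g => ρ g) (fun g => ρ' g) b b' A₁ A₁' B₁ B₁' := by
  classical
  obtain ⟨ι, _, e, a, F₁, ι', _, e', a', F₁', φ, hG, hG', hφ, hF⟩ := hP
  obtain ⟨e, A₁, A₁', h₁, h2, h3⟩ := of_grd hr hd h hG
  obtain ⟨e', A₂, A₂', h₂, h4, h5⟩ := of_grd hr hd' h' hG'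
  set Φ := LinearMap.toMatrix e e' (φ : (Fin n → k) →ₗ[k] (Fin n → k)) with hΦ
  set Φ' := LinearMap.toMatrix e' e (φ.symm : (Fin n → k) →ₗ[k] (Fin n → k)) with hΦ'
  have hPP : Φ * Φ' = 1 := by
    rw [hΦ, hΦ', ← LinearMap.toMatrix_comp e' e e',
      show (φ : (Fin n → k) →ₗ[k] (Fin n → k)) ∘ₗ (φ.symm : (Fin n → k) →ₗ[k] (Fin n → k)) =
        LinearMap.id from LinearMap.ext fun x => φ.apply_symm_apply x, LinearMap.toMatrix_id]
  have hM0 : ∀ M : Matrix (Fin n) (Fin n) k, grM (fun _ => 0) M = M := fun M => by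
    ext i j
    rw [grM, if_pos rfl]
  have hB0 : ∀ M : Matrix (Fin n) (Fin n) k, grB (fun _ => 0) M = M := fun M => by
    ext i j
    rw [grB, if_pos (by simp)]
  have hFF : Φᵀ * (A₂ᵀ * b' * A₂).map rd * Φ = LinearMap.BilinForm.toMatrix e F₁ := by
    rw [h5, hΦ, ← LinearMap.BilinForm.toMatrix_comp]
    congr 1
    exact LinearMap.ext fun x => LinearMap.ext fun y => hF x y
  have hdet : (grB (fun _ => 0) (Φᵀ * (A₂ᵀ * b' * A₂).map rd * Φ)).det ≠ 0 := by
    rw [hB0, hFF]
    exact (LinearMap.BilinForm.nondegenerate_iff_det_ne_zero e).1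
      (LinearMap.BilinForm.Nondegenerate.ofSeparatingLeft hG.nd)
  obtain ⟨A₃, A₃', h₃, h8, h9⟩ := exists_lat hr hd' h₂ hPP (fun _ => 0)
    (fun g i j hij => absurd hij (lt_irrefl _))
    (fun i j hij => absurd hij (by simp)) hdet
  have h10 : ∀ g, resR hr h₃ g = resR hr h₁ g := by
    intro g
    rw [h8, hM0, h4, h2, hΦ, hΦ', ← LinearMap.toMatrix_comp e' e' e, ← LinearMap.toMatrix_comp e e' e]
    congr 1
    refine LinearMap.ext fun x => ?_
    show φ.symm (toRep (resR hr h') g (φ x)) = _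
    rw [← hφ, φ.symm_apply_apply]
  have h11 : (A₃ᵀ * b' * A₃).map rd = (A₁ᵀ * b * A₁).map rd := by
    rw [h9, hB0, hFF, h3]
  refine ⟨A₁, A₁', A₃, A₃', ⟨h₁, h₃, fun g i j => ?_, fun i j => ?_⟩⟩
  · rw [Matrix.sub_apply]
    refine norm_sub_lt hr (h₁.st g i j) (h₃.st g i j) ?_
    exact (congrFun (congrFun (h10 g) i) j).symm
  · rw [Matrix.sub_apply]
    refine norm_sub_lt hr (h₁.un i j) (h₃.un i j) ?_
    exact (congrFun (congrFun h11 i) j).symm

/-- the characteristic polynomials of the residual representations (model: `RB.charpoly_res` in RB/St1.lean) -/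
theorem charpoly_pair (hr : Red rd) (h : Good (fun g => ρ g) b A A')
    (h' : Good (fun g => ρ' g) b' B B')
    (hch : ∀ g i, ‖(ρ g).charpoly.coeff i - (ρ' g).charpoly.coeff i‖ < 1) (g : G) :
    (resR hr h g).charpoly = (resR hr h' g).charpoly := by
  have h1 : (A' * ρ g * A).charpoly = (ρ g).charpoly := by
    rw [Matrix.mul_assoc, Matrix.charpoly_mul_comm, Matrix.mul_assoc, h.inv, Matrix.mul_one]
  have h1' : (B' * ρ' g * B).charpoly = (ρ' g).charpoly := by
    rw [Matrix.mul_assoc, Matrix.charpoly_mul_comm, Matrix.mul_assoc, h'.inv, Matrix.mul_one]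
  ext i
  have h2 := coeff_red hr (h.st g) i
  have h3 := coeff_red hr (h'.st g) i
  rw [resR_apply, resR_apply, h2.2, h3.2]
  refine rd_eq hr h2.1 ?_
  have h4 := hch g i
  rw [← h1, ← h1'] at h4
  exact h4

end Pool.Agent.Work.MP_787500_nt.RP
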