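import Mathlib
import Pool.Agent.Work.MP_787500_nt.RP.Defs
import Pool.Agent.Work.MP_787500_nt.RB.Basic

/-!
# RP/Hyp (size M, ANYBODY): two hyperbolic representations

`V = W ⊕ U`, `V' = W' ⊕ U'`, `W` and `W'` isotropic and equivalent (`ψ : W ≃ W'`). An element `w ∈ W` orthogonal to `U` is orthogonal to
`W + U = V`, so it is 0; with `hU0` the pairing `W × U → k` is perfect, `dim W = dim U` (`LinearMap.IsPerfPair` or finite dimension
and injectivity in both variables), the same for `W'`, `U'`.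
* basis of `V`: `(finBasis k W).prod (finBasis k U)` mapped by `W.prodEquivOfIsCompl U hc`, index type `Fin _ ⊕ Fin _`, weights -1 on `W`, 1 on
  `U`. `B₁ (w + u) (w' + u') = B w u' + B u w'`. `rep`: `W` and `U` are stable. `neg`: only `W × W`. `nd`: pair with `W`, then with `U`.
* `φ (w + u) = ψ w + θ u`, where `θ u ∈ U'` is the element with `B' (ψ w) (θ u) = B w u` for all `w ∈ W` (the pairing `W' × U'` is perfect; `θ`
  is linear and bijective). `θ (ρ g u) = ρ' g (θ u)`: `B' (ψ w) (ρ' g (θ u)) = B' (ρ' (κ g)⁻¹ (ψ w)) (θ u)` (`hB'.dual` for `(κ g)`, `κ (κ g) = g`)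
  `= B' (ψ (ρ (κ g)⁻¹ w)) (θ u) = B (ρ (κ g)⁻¹ w) u = B w (ρ g u)`. Isometry: `B₁'` on `V'` is defined as `B₁`.
-/

set_option autoImplicit false
set_option linter.unusedSectionVars false

namespace Pool.Agent.Work.MP_787500_nt.RP

open Matrix Module
open Pool.Agent.Work.MP_787500_nt.RB

variable {G : Type*} [Group G] {k : Type*} [Field k] {V V' : Type*} [AddCommGroup V] [Module k V]
  [FiniteDimensional k V] [AddCommGroup V'] [Module k V'] [FiniteDimensional k V'] {κ : G →* G}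
  {ρ : Representation k G V} {B : LinearMap.BilinForm k V} {ρ' : Representation k G V'}
  {B' : LinearMap.BilinForm k V'}

private theorem left_zero (hB : TwForm κ ρ B) {W U : Submodule k V} (hc : IsCompl W U)
    (hi : ∀ x ∈ W, ∀ y ∈ W, B x y = 0) {w : V} (hw : w ∈ W) (h : ∀ u ∈ U, B w u = 0) : w = 0 := by
  refine hB.nondeg w fun z => ?_
  have h2 : z ∈ W ⊔ U := by
    rw [codisjoint_iff.1 hc.2]
    exact Submodule.mem_top
  obtain ⟨a, ha, b, hb, rfl⟩ := Submodule.mem_sup.1 h2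
  rw [map_add, hi w hw a ha, h b hb, add_zero]

private theorem grd_hyp (hB : TwForm κ ρ B) {W U : Submodule k V} (hW : Stab ρ W) (hU : Stab ρ U)
    (hc : IsCompl W U) (hi : ∀ x ∈ W, ∀ y ∈ W, B x y = 0)
    (hU0 : ∀ u ∈ U, (∀ w ∈ W, B w u = 0) → u = 0) :
    ∃ (ι : Type) (_ : Fintype ι) (e : Basis ι k V) (a : ι → ℤ) (B₁ : LinearMap.BilinForm k V),
      Grd ρ B e a B₁ ∧ ∀ (w w' : W) (u u' : U),
        B₁ ((w : V) + u) ((w' : V) + u') = B w u' + B u w' := by
  set P : (W × U) ≃ₗ[k] V := W.prodEquivOfIsCompl U hc with hP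
  have hPa : ∀ (x : W) (y : U), P (x, y) = (x : V) + y := fun x y => rfl
  have hρ : ∀ (g : G) (x : W) (y : U), ρ g (P (x, y)) = P (sub ρ W hW g x, sub ρ U hU g y) := by
    intro g x y
    rw [hPa, hPa, map_add]
    rfl
  have hs : ∀ z : V, ∃ (x : W) (y : U), z = P (x, y) := by
    intro z
    obtain ⟨⟨x, y⟩, rfl⟩ := P.surjective z
    exact ⟨x, y, rfl⟩
  let fx : V →ₗ[k] V := W.subtype.comp ((LinearMap.fst k W U).comp P.symm.toLinearMap)
  let fy : V →ₗ[k] V := U.subtype.comp ((LinearMap.snd k W U).comp P.symm.toLinearMap)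
  have hfx : ∀ x y, fx (P (x, y)) = x := by
    intro x y
    change ((P.symm (P (x, y))).1 : V) = x
    rw [LinearEquiv.symm_apply_apply]
  have hfy : ∀ x y, fy (P (x, y)) = y := by
    intro x y
    change ((P.symm (P (x, y))).2 : V) = y
    rw [LinearEquiv.symm_apply_apply]
  let B₁ : LinearMap.BilinForm k V := B.compl₁₂ fx fy + B.compl₁₂ fy fx
  have hB₁ : ∀ x y x' y', B₁ (P (x, y)) (P (x', y')) = B x y' + B y x' := by
    intro x y x' y'
    change B (fx (P (x, y))) (fy (P (x', y'))) + B (fy (P (x, y))) (fx (P (x', y'))) = _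
    rw [hfx, hfx, hfy, hfy]
  let e : Basis (Fin (finrank k W) ⊕ Fin (finrank k U)) k V :=
    ((Module.finBasis k W).prod (Module.finBasis k U)).map P
  have he1 : ∀ i, e (Sum.inl i) = P (Module.finBasis k W i, 0) := by
    intro i
    change P (((Module.finBasis k W).prod (Module.finBasis k U)) (Sum.inl i)) = _
    rw [Module.Basis.prod_apply]
    rfl
  have he2 : ∀ i, e (Sum.inr i) = P (0, Module.finBasis k U i) := by
    intro i
    change P (((Module.finBasis k W).prod (Module.finBasis k U)) (Sum.inr i)) = _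
    rw [Module.Basis.prod_apply]
    rfl
  have hr : ∀ z, e.repr (P z) = ((Module.finBasis k W).prod (Module.finBasis k U)).repr z := by
    intro z
    change ((Module.finBasis k W).prod (Module.finBasis k U)).repr (P.symm (P z)) = _
    rw [LinearEquiv.symm_apply_apply]
  have hr1 : ∀ x y i, e.repr (P (x, y)) (Sum.inl i) = (Module.finBasis k W).repr x i := by
    intro x y i
    rw [hr, Module.Basis.prod_repr_inl]
  have hr2 : ∀ x y i, e.repr (P (x, y)) (Sum.inr i) = (Module.finBasis k U).repr y i := by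
    intro x y i
    rw [hr, Module.Basis.prod_repr_inr]
  refine ⟨_, inferInstance, e, Sum.elim (fun _ => -1) (fun _ => 1), B₁, ⟨?_, ?_, ?_, ?_⟩, ?_⟩
  · rintro g (i | i) (j | j) hij
    · exact absurd rfl hij
    · rw [he2, hρ, hr1, map_zero, map_zero]
      rfl
    · rw [he1, hρ, hr2, map_zero, map_zero]
      rfl
    · exact absurd rfl hij
  · rintro (i | i) (j | j) hij
    · rw [he1, he1, hPa, hPa, ZeroMemClass.coe_zero, add_zero, add_zero]
      exact hi _ (Submodule.coe_mem _) _ (Submodule.coe_mem _)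
    · simp at hij
    · simp at hij
    · simp at hij
  · rintro (i | i) (j | j)
    · rw [he1, he1, hB₁, ZeroMemClass.coe_zero, map_zero, map_zero, LinearMap.zero_apply, add_zero,
        if_neg (by simp)]
    · rw [he1, he2, hB₁, ZeroMemClass.coe_zero, map_zero, LinearMap.zero_apply, add_zero,
        if_pos (by simp), hPa, hPa, ZeroMemClass.coe_zero, ZeroMemClass.coe_zero, add_zero, zero_add]
    · rw [he1, he2, hB₁, ZeroMemClass.coe_zero, map_zero, LinearMap.zero_apply, zero_add,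
        if_pos (by simp), hPa, hPa, ZeroMemClass.coe_zero, ZeroMemClass.coe_zero, add_zero, zero_add]
    · rw [he2, he2, hB₁, ZeroMemClass.coe_zero, map_zero, map_zero, LinearMap.zero_apply, add_zero,
        if_neg (by simp)]
  · intro z hz
    obtain ⟨w, u, rfl⟩ := hs z
    have h1 : (w : V) = 0 := by
      refine left_zero hB hc hi w.2 fun u' hu' => ?_
      have h3 := hz (P (0, ⟨u', hu'⟩))
      rwa [hB₁, ZeroMemClass.coe_zero, map_zero, add_zero] at h3
    have h2 : (u : V) = 0 := by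
      refine hU0 u u.2 fun w' hw' => ?_
      have h3 := hz (P (⟨w', hw'⟩, 0))
      rw [hB₁, ZeroMemClass.coe_zero, map_zero, zero_add] at h3
      rw [hB.symm]
      exact h3
    rw [hPa, h1, h2, add_zero]
  · intro w w' u u'
    rw [← hPa, ← hPa, hB₁]

private theorem perf (hB : TwForm κ ρ B) {W U : Submodule k V} (hc : IsCompl W U)
    (hi : ∀ x ∈ W, ∀ y ∈ W, B x y = 0) (hU0 : ∀ u ∈ U, (∀ w ∈ W, B w u = 0) → u = 0) :
    ∃ Q : U ≃ₗ[k] (W →ₗ[k] k), ∀ u w, Q u w = B w u := by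
  let q : U →ₗ[k] (W →ₗ[k] k) := (B.domRestrict₁₂ W U).flip
  have hq : ∀ u w, q u w = B w u := fun u w => rfl
  have i1 : Function.Injective q := by
    rw [← LinearMap.ker_eq_bot, LinearMap.ker_eq_bot']
    intro u hu
    refine Subtype.ext (hU0 u u.2 fun w hw => ?_)
    have h1 := hq u ⟨w, hw⟩
    rw [hu] at h1
    exact h1.symm
  have i2 : Function.Injective q.flip := by
    rw [← LinearMap.ker_eq_bot, LinearMap.ker_eq_bot']
    intro w hw
    refine Subtype.ext (left_zero hB hc hi w.2 fun u hu => ?_)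
    have h1 := hq ⟨u, hu⟩ w
    rw [← LinearMap.flip_apply, hw] at h1
    exact h1.symm
  have d1 : finrank k U ≤ finrank k W := by
    have := LinearMap.finrank_le_finrank_of_injective (f := q) i1
    rwa [Subspace.dual_finrank_eq] at this
  have d2 : finrank k W ≤ finrank k U := by
    have := LinearMap.finrank_le_finrank_of_injective (f := q.flip) i2
    rwa [Subspace.dual_finrank_eq] at this
  have d3 : finrank k U = finrank k (W →ₗ[k] k) :=
    (le_antisymm d1 d2).trans (Subspace.dual_finrank_eq (K := k) (V := W)).symm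
  exact ⟨LinearEquiv.ofInjectiveOfFinrankEq q i1 d3, fun u w => hq u w⟩

private theorem inv_ap {M : Type*} [AddCommGroup M] [Module k M] (ρ : Representation k G M) (g : G)
    (y : M) : ρ g (ρ g⁻¹ y) = y := by
  have h : (ρ g * ρ g⁻¹) y = y := by
    rw [← map_mul, mul_inv_cancel, map_one]
    rfl
  exact h

private theorem tw (hκ : ∀ g, κ (κ g) = g) (hB : TwForm κ ρ B) (g : G) (x y : V) :
    B x (ρ g y) = B (ρ (κ g)⁻¹ x) y := by
  have h1 := hB.dual (κ g) (ρ (κ g)⁻¹ x) y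
  rwa [hκ, inv_ap] at h1

theorem hasPair_hyp (hκ : ∀ g, κ (κ g) = g) (hB : TwForm κ ρ B) (hB' : TwForm κ ρ' B')
    {W U : Submodule k V} {W' U' : Submodule k V'} (hW : Stab ρ W) (hU : Stab ρ U)
    (hW' : Stab ρ' W') (hU' : Stab ρ' U') (hc : IsCompl W U) (hc' : IsCompl W' U')
    (hi : ∀ x ∈ W, ∀ y ∈ W, B x y = 0) (hi' : ∀ x ∈ W', ∀ y ∈ W', B' x y = 0)
    (hU0 : ∀ u ∈ U, (∀ w ∈ W, B w u = 0) → u = 0)
    (hU0' : ∀ u ∈ U', (∀ w ∈ W', B' w u = 0) → u = 0)
    (he : Eqv (sub ρ W hW) (sub ρ' W' hW')) : HasPair ρ B ρ' B' := by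
  obtain ⟨ι, _, e, a, B₁, hg, hB₁⟩ := grd_hyp hB hW hU hc hi hU0
  obtain ⟨ι', _, e', a', B₁', hg', hB₁'⟩ := grd_hyp hB' hW' hU' hc' hi' hU0'
  obtain ⟨ψ, hψ⟩ := he
  obtain ⟨Q, hQ⟩ := perf hB hc hi hU0
  obtain ⟨Q', hQ'⟩ := perf hB' hc' hi' hU0'
  let θ : U ≃ₗ[k] U' := (Q.trans (ψ.symm.dualMap)).trans Q'.symm
  have hθ : ∀ (w : W) (u : U), B' (ψ w) (θ u) = B w u := by
    intro w u
    rw [← hQ' (θ u) (ψ w)]
    change Q' (Q'.symm (ψ.symm.dualMap (Q u))) (ψ w) = _
    rw [LinearEquiv.apply_symm_apply, LinearEquiv.dualMap_apply, LinearEquiv.symm_apply_apply, hQ]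
  have hθg : ∀ (g : G) (u : U), θ (sub ρ U hU g u) = sub ρ' U' hU' g (θ u) := by
    intro g u
    apply Q'.injective
    refine LinearMap.ext fun w' => ?_
    obtain ⟨w, rfl⟩ := ψ.surjective w'
    rw [hQ', hQ', hθ, RB.sub_apply, RB.sub_apply, tw hκ hB, tw hκ hB']
    have h1 := hψ (κ g)⁻¹ w
    have h2 : ρ' (κ g)⁻¹ (ψ w : V') = ((ψ (sub ρ W hW (κ g)⁻¹ w) : W') : V') := by
      rw [h1, RB.sub_apply]
    rw [h2, hθ, RB.sub_apply]
  let P : (W × U) ≃ₗ[k] V := W.prodEquivOfIsCompl U hc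
  let P' : (W' × U') ≃ₗ[k] V' := W'.prodEquivOfIsCompl U' hc'
  have hPa : ∀ (x : W) (y : U), P (x, y) = (x : V) + y := fun x y => rfl
  have hPa' : ∀ (x : W') (y : U'), P' (x, y) = (x : V') + y := fun x y => rfl
  let φ : V ≃ₗ[k] V' := (P.symm.trans (ψ.prodCongr θ)).trans P'
  have hφ : ∀ (w : W) (u : U), φ (P (w, u)) = P' (ψ w, θ u) := by
    intro w u
    change P' ((ψ.prodCongr θ) (P.symm (P (w, u)))) = _
    rw [LinearEquiv.symm_apply_apply]
    rfl
  have hρ : ∀ (g : G) (x : W) (y : U), ρ g (P (x, y)) = P (sub ρ W hW g x, sub ρ U hU g y) := by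
    intro g x y
    rw [hPa, hPa, map_add]
    rfl
  have hρ' : ∀ (g : G) (x : W') (y : U'),
      ρ' g (P' (x, y)) = P' (sub ρ' W' hW' g x, sub ρ' U' hU' g y) := by
    intro g x y
    rw [hPa', hPa', map_add]
    rfl
  refine ⟨ι, inferInstance, e, a, B₁, ι', inferInstance, e', a', B₁', φ, hg, hg', fun g x => ?_,
    fun x y => ?_⟩
  · obtain ⟨⟨w, u⟩, rfl⟩ := P.surjective x
    rw [hρ, hφ, hφ, hρ', hψ, hθg]
  · obtain ⟨⟨w, u⟩, rfl⟩ := P.surjective x
    obtain ⟨⟨w', u'⟩, rfl⟩ := P.surjective y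
    rw [hφ, hφ, hPa, hPa, hPa', hPa', hB₁, hB₁', hθ, hB'.symm, hθ, hB.symm w']

end Pool.Agent.Work.MP_787500_nt.RP
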