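import Mathlib
import Pool.Agent.Work.MP_787500_nt.RP.Defs
import Pool.Agent.Work.MP_787500_nt.RB.Basic
import Pool.Agent.Work.MP_787500_nt.RB.Schur

/-!
# RP/Irr (size S-M, ANYBODY): two equivalent irreducible representations with nondegenerate forms

`φ₀ : V ≃ V'` the equivalence. `B₂ x y = B' (φ₀ x) (φ₀ y)` satisfies `B₂ (ρ g x) (ρ (κ g) y) = B₂ x y`, as `B`: by `pair_unique` for `ρ` and
`ρ.comp κ` (`irr_comp`), `B₂ = c B` (`B ≠ 0` because `V ≠ 0` and `B` is nondegenerate), `c ≠ 0` (`B'` nondegenerate). `d * d = c⁻¹`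
(`exists_sqrt`), `φ = d • φ₀`. Basis `finBasis` (index type `Fin _`), all weights 0, `B₁ = B`, `B₁' = B'`.
-/

set_option autoImplicit false
set_option linter.unusedSectionVars false

namespace Pool.Agent.Work.MP_787500_nt.RP

open Matrix Module
open Pool.Agent.Work.MP_787500_nt.RB

variable {G : Type*} [Group G] {k : Type*} [Field k] [IsAlgClosed k] {V V' : Type*}
  [AddCommGroup V] [Module k V] [FiniteDimensional k V] [AddCommGroup V'] [Module k V']
  [FiniteDimensional k V'] {κ : G →* G} {ρ : Representation k G V} {B : LinearMap.BilinForm k V}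
  {ρ' : Representation k G V'} {B' : LinearMap.BilinForm k V'}

private theorem grd_zero (hB : TwForm κ ρ B) : Grd ρ B (Module.finBasis k V) (fun _ => 0) B where
  rep := fun _ _ _ h => absurd rfl h
  neg := fun _ _ h => absurd h (by simp)
  val := fun i j => by simp
  nd := hB.nondeg

theorem hasPair_irr (hκ : ∀ g, κ (κ g) = g) (hB : TwForm κ ρ B) (hB' : TwForm κ ρ' B')
    (h : Irr ρ) (he : Eqv ρ ρ') : HasPair ρ B ρ' B' := by
  obtain ⟨φ₀, hφ⟩ := he
  obtain ⟨x0, hx0⟩ := h.1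
  let B₂ : LinearMap.BilinForm k V := B'.compl₁₂ φ₀.toLinearMap φ₀.toLinearMap
  have hB2 : ∀ x y, B₂ x y = B' (φ₀ x) (φ₀ y) := fun x y => rfl
  have h0 : B ≠ 0 := by
    intro hB0
    exact hx0 (hB.nondeg x0 fun y => by rw [hB0]; rfl)
  obtain ⟨c, hc⟩ := pair_unique (ρ := ρ) (ρ' := ρ.comp κ) h (irr_comp hκ h) (B := B) (B₂ := B₂)
    (fun g x y => hB.dual g x y) (fun g x y => by
      rw [hB2, hB2, MonoidHom.comp_apply, hφ, hφ, hB'.dual]) h0
  have hc0 : c ≠ 0 := by
    rintro rfl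
    have h1 : φ₀ x0 = 0 := hB'.nondeg _ fun z => by
      have h2 := hc x0 (φ₀.symm z)
      rwa [hB2, LinearEquiv.apply_symm_apply, zero_mul] at h2
    exact hx0 (by rw [← φ₀.symm_apply_apply x0, h1, map_zero])
  obtain ⟨t, ht⟩ := exists_sqrt (k := k) c⁻¹
  have ht0 : t ≠ 0 := by
    rintro rfl
    rw [zero_mul] at ht
    exact inv_ne_zero hc0 ht.symm
  let φ : V ≃ₗ[k] V' := φ₀.trans (LinearEquiv.smulOfNeZero k V' t ht0)
  have hφa : ∀ x, φ x = t • φ₀ x := fun x => rfl
  refine ⟨_, inferInstance, Module.finBasis k V, fun _ => 0, B, _, inferInstance,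
    Module.finBasis k V', fun _ => 0, B', φ, grd_zero hB, grd_zero hB', fun g x => ?_, fun x y => ?_⟩
  · rw [hφa, hφa, hφ, map_smul]
  · rw [hφa, hφa, map_smul, map_smul, LinearMap.smul_apply, smul_smul, ht, ← hB2, hc, smul_eq_mul,
      ← mul_assoc, inv_mul_cancel₀ hc0, one_mul]

end Pool.Agent.Work.MP_787500_nt.RP
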