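import Mathlib
import Pool.Agent.Work.MP_787500_nt.RP.Defs
import Pool.Agent.Work.MP_787500_nt.RP.Sum
import Pool.Agent.Work.MP_787500_nt.RP.Hyp
import Pool.Agent.Work.MP_787500_nt.RP.Irr
import Pool.Agent.Work.MP_787500_nt.RB.Basic
import Pool.Agent.Work.MP_787500_nt.RB.Schur
import Pool.Agent.Work.MP_787500_nt.RB.BN
import Pool.Agent.Work.MP_787500_nt.RB.Copy

/-!
# RP/St (size M-L): THE RESIDUAL THEOREM FOR PAIRS (model: RB/St2.lean, proved)

Strong induction on `finrank k V` (for all `V`, `V'`). `φ : V ≃ V'` the equivalence from the theorem `bn` of RB/BN. If `V = 0`: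
`hasPair_zero`. (R) Reduction: it is enough to find stable `X ≠ ⊥` in `V` and `X'` in `V'` on which `B`, `B'` are nondegenerate, with `HasPair` for
`X`, `X'` (restricted representations and forms): `V = X ⊕ X^⊥`, `V' = X' ⊕ X'^⊥` (`isCompl_orth`), the orthogonals are stable
(`stab_orth`), semisimple (`ss_sub`), nondegenerate (`nondeg_orth`, `twForm_sub`), of smaller dimension, and have equal characteristic
polynomials (`charpoly_split` on both sides, `charpoly_eqv` with `eqv_of_pair` for `X`, `X'`, cancel the monic factor); `hasPair_sum`.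
CASE A: `V` has an irreducible `W` with `B = 0` on `W`. `φ (W)` is irreducible in `V'`, equivalent to `W`.
 Claim: there is an irreducible `W'` in `V'` equivalent to `W` with `B' = 0` on `W'`. If `B' = 0` on `φ W`, take it. Otherwise `B'` is a nonzero
   form on `φ W` with `B' (ρ' g x) (ρ' (κ g) y) = B' x y`, so nondegenerate (`pair_nondeg`). In `V` let `U` be a stable complement of `W^⊥`
   (semisimple). `B` gives a perfect pairing of `W` and `U` (`u ∈ U` orthogonal to `W` is in `U ⊓ W^⊥ = ⊥`; dimensions: `finrank_orth`), invariant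
   in the sense `B (ρ g w) (ρ (κ g) u) = B w u`; `h x y = B' (φ x) (φ y)` is a perfect pairing of `W` with `W` with the same invariance. So `U` is
   equivalent to `W` (send `u` to the `x` with `h w x = B w u` for all `w`; compare `eqv_of_pairings` or the end of case I.3 in the proof of
   RB/St2.lean). `W ⊓ U = ⊥` (`W ≤ W^⊥`). `φ W` and `φ U` are equivalent irreducible subrepresentations of `V'` with intersection `⊥`:
   `exists_copy` gives `W'`.
 With `W'`: `U` as above, `U'` a stable complement of `W'^⊥` in `V'`; `X = W ⊔ U`, `X' = W' ⊔ U'`: `B` is nondegenerate on `X` (step (*) in the proof of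
   RB/St2.lean), `hasPair_hyp` for the restrictions to `X`, `X'` (with `W`, `U` as subspaces of `X`). Then (R).
CASE B: `V'` has an irreducible isotropic subrepresentation: case A with the roles of `V` and `V'` exchanged (`hasPair_symm`; put case A in a
   lemma with the induction hypothesis symmetric, or prove: if `V'` has one then `V` has one, by the claim).
CASE C: neither. Let `S` be irreducible in `V` (`exists_irrS_le` for `⊤`), `S' = φ S`. `B` is nonzero on `S`, so nondegenerate on `S`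
   (`pair_nondeg`: `S` with `ρ` and with `ρ.comp κ`), the same for `S'`. `hasPair_irr` for `X = S`, `X' = S'`. Then (R).
-/

set_option autoImplicit false
set_option linter.unusedSectionVars false

namespace Pool.Agent.Work.MP_787500_nt.RP

open Matrix Module
open Pool.Agent.Work.MP_787500_nt.RB

universe u

section eqv

variable {G : Type*} [Group G] {k : Type*} [Field k] {V V' V'' : Type*} [AddCommGroup V]
  [Module k V] [AddCommGroup V'] [Module k V'] [AddCommGroup V''] [Module k V'']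
  {ρ : Representation k G V} {ρ' : Representation k G V'} {ρ'' : Representation k G V''}

private theorem eqv_symm (h : Eqv ρ ρ') : Eqv ρ' ρ := by
  obtain ⟨φ, h⟩ := h
  refine ⟨φ.symm, fun g x => ?_⟩
  rw [LinearEquiv.symm_apply_eq, h, LinearEquiv.apply_symm_apply]

private theorem eqv_trans (h : Eqv ρ ρ') (h' : Eqv ρ' ρ'') : Eqv ρ ρ'' := by
  obtain ⟨φ, h⟩ := h
  obtain ⟨φ', h'⟩ := h'
  exact ⟨φ.trans φ', fun g x => by rw [LinearEquiv.trans_apply, LinearEquiv.trans_apply, h, h']⟩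

private theorem pair_equiv {W : Type*} [AddCommGroup W] [Module k W] [FiniteDimensional k V]
    [FiniteDimensional k W] (B : V →ₗ[k] W →ₗ[k] k) (m1 : ∀ x, (∀ y, B x y = 0) → x = 0)
    (m2 : ∀ y, (∀ x, B x y = 0) → y = 0) : ∃ e : W ≃ₗ[k] (V →ₗ[k] k), ∀ y x, e y x = B x y := by
  have i1 : Function.Injective B := (injective_iff_map_eq_zero B).2 fun x hx =>
    m1 x fun y => by rw [hx, LinearMap.zero_apply]
  have i2 : Function.Injective B.flip := (injective_iff_map_eq_zero B.flip).2 fun y hy =>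
    m2 y fun x => by rw [← LinearMap.flip_apply, hy, LinearMap.zero_apply]
  have d1 : finrank k V ≤ finrank k W := by
    have := LinearMap.finrank_le_finrank_of_injective i1
    rwa [show finrank k (W →ₗ[k] k) = finrank k W from Subspace.dual_finrank_eq] at this
  have d2 : finrank k W ≤ finrank k V := by
    have := LinearMap.finrank_le_finrank_of_injective i2
    rwa [show finrank k (V →ₗ[k] k) = finrank k V from Subspace.dual_finrank_eq] at this
  have d3 : finrank k W = finrank k (V →ₗ[k] k) := by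
    rw [show finrank k (V →ₗ[k] k) = finrank k V from Subspace.dual_finrank_eq]
    exact le_antisymm d2 d1
  exact ⟨LinearMap.linearEquivOfInjective B.flip i2 d3, fun y x => rfl⟩

private theorem eqv_of_pairings [FiniteDimensional k V] [FiniteDimensional k V']
    [FiniteDimensional k V''] {B₁ : V →ₗ[k] V' →ₗ[k] k} {B₂ : V →ₗ[k] V'' →ₗ[k] k}
    (h1 : ∀ g x y, B₁ (ρ g x) (ρ' g y) = B₁ x y) (h2 : ∀ g x y, B₂ (ρ g x) (ρ'' g y) = B₂ x y)
    (n1 : ∀ x, (∀ y, B₁ x y = 0) → x = 0) (n1' : ∀ y, (∀ x, B₁ x y = 0) → y = 0)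
    (n2 : ∀ x, (∀ y, B₂ x y = 0) → x = 0) (n2' : ∀ y, (∀ x, B₂ x y = 0) → y = 0) :
    Eqv ρ' ρ'' := by
  obtain ⟨e₁, he₁⟩ := pair_equiv B₁ n1 n1'
  obtain ⟨e₂, he₂⟩ := pair_equiv B₂ n2 n2'
  have ha : ∀ x y, B₂ x (e₂.symm (e₁ y)) = B₁ x y := by
    intro x y
    rw [← he₂, LinearEquiv.apply_symm_apply, he₁]
  refine ⟨e₁.trans e₂.symm, fun g y => ?_⟩
  rw [LinearEquiv.trans_apply, LinearEquiv.trans_apply, LinearEquiv.symm_apply_eq]
  refine LinearMap.ext fun x => ?_
  rw [he₂, he₁]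
  have hx : ρ g (ρ g⁻¹ x) = x := by
    rw [← Module.End.mul_apply, ← map_mul, mul_inv_cancel, map_one, Module.End.one_apply]
  rw [← hx, h1, h2, ha]

end eqv

variable {G : Type*} [Group G] {k : Type*} [Field k]

section basic

variable {V : Type u} [AddCommGroup V] [Module k V] {κ : G →* G} {ρ : Representation k G V}
  {B : LinearMap.BilinForm k V}

private theorem stab_map_subtype {X : Submodule k V} (hX : Stab ρ X) {U : Submodule k X}
    (hU : Stab (sub ρ X hX) U) : Stab ρ (U.map X.subtype) := by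
  rintro g _ ⟨u, hu, rfl⟩
  exact ⟨sub ρ X hX g u, hU g u hu, rfl⟩

private theorem stab_comap' {X W : Submodule k V} (hX : Stab ρ X) (hW : Stab ρ W) :
    Stab (sub ρ X hX) (W.comap X.subtype) := fun g x hx => hW g x hx

private theorem eqv_comap {X W : Submodule k V} (hX : Stab ρ X) (hW : Stab ρ W) (hle : W ≤ X) :
    Eqv (sub (sub ρ X hX) (W.comap X.subtype) (stab_comap' hX hW)) (sub ρ W hW) :=
  ⟨Submodule.comapSubtypeEquivOfLe hle, fun _ _ => rfl⟩

private theorem isCompl_comap {W U : Submodule k V} (hd : W ⊓ U = ⊥) :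
    IsCompl (W.comap (W ⊔ U).subtype) (U.comap (W ⊔ U).subtype) := by
  refine ⟨?_, ?_⟩
  · rw [Submodule.disjoint_def]
    intro x hx hx'
    have h1 : (x : V) ∈ W ⊓ U := ⟨hx, hx'⟩
    rw [hd] at h1
    exact Subtype.ext h1
  · rw [codisjoint_iff, eq_top_iff]
    intro x _
    obtain ⟨w, hw, u, hu, h1⟩ := Submodule.mem_sup.1 x.2
    refine Submodule.mem_sup.2 ⟨⟨w, Submodule.mem_sup_left hw⟩, hw,
      ⟨u, Submodule.mem_sup_right hu⟩, hu, Subtype.ext h1⟩

/-- the partner of an isotropic stable subspace -/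
private theorem partner [FiniteDimensional k V] (hκ : ∀ g, κ (κ g) = g) (hB : TwForm κ ρ B)
    (hs : Ss ρ) {W : Submodule k V} (hW : Stab ρ W) (hi : ∀ x ∈ W, ∀ y ∈ W, B x y = 0) :
    ∃ U : Submodule k V, Stab ρ U ∧ W ⊓ U = ⊥ ∧
      (∀ u ∈ U, (∀ w ∈ W, B w u = 0) → u = 0) ∧
      (∀ w ∈ W, (∀ u ∈ U, B w u = 0) → w = 0) := by
  obtain ⟨U, hU, hc⟩ := hs _ (stab_orth hκ hB hW)
  have h1 : ∀ u ∈ U, (∀ w ∈ W, B w u = 0) → u = 0 := fun u hu h =>
    Submodule.disjoint_def.1 hc.1 u h hu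
  refine ⟨U, hU, ?_, h1, ?_⟩
  · rw [eq_bot_iff]
    exact fun x hx => h1 x hx.2 fun w hw => hi w hw x hx.1
  · intro w hw h
    refine hB.nondeg w fun y => ?_
    have h2 : y ∈ B.orthogonal W ⊔ U := by
      rw [codisjoint_iff.1 hc.2]
      exact Submodule.mem_top
    obtain ⟨a, ha, b, hb, rfl⟩ := Submodule.mem_sup.1 h2
    rw [map_add, show B w a = 0 from ha w hw, h b hb, add_zero]

private theorem nondeg_partner (hB : TwForm κ ρ B) {W U : Submodule k V}
    (hi : ∀ x ∈ W, ∀ y ∈ W, B x y = 0) (h1 : ∀ u ∈ U, (∀ w ∈ W, B w u = 0) → u = 0)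
    (h2 : ∀ w ∈ W, (∀ u ∈ U, B w u = 0) → w = 0) :
    ∀ x ∈ W ⊔ U, (∀ y ∈ W ⊔ U, B x y = 0) → x = 0 := by
  intro x hx h
  obtain ⟨w, hw, u, hu, rfl⟩ := Submodule.mem_sup.1 hx
  have h3 : u = 0 := h1 u hu fun w' hw' => by
    have h4 := h w' (Submodule.mem_sup_left hw')
    rw [map_add, LinearMap.add_apply, hi w hw w' hw', zero_add, hB.symm] at h4
    exact h4
  rw [h3, add_zero] at h ⊢
  exact h2 w hw fun u' hu' => h u' (Submodule.mem_sup_right hu')

end basic

section img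

variable {V V' : Type u} [AddCommGroup V] [Module k V] [AddCommGroup V'] [Module k V']
  {ρ : Representation k G V} {ρ' : Representation k G V'}

private theorem stab_img {φ : V ≃ₗ[k] V'} (hφ : ∀ g x, φ (ρ g x) = ρ' g (φ x))
    {W : Submodule k V} (hW : Stab ρ W) : Stab ρ' (W.map (φ : V →ₗ[k] V')) := by
  rintro g _ ⟨w, hw, rfl⟩
  exact ⟨ρ g w, hW _ _ hw, hφ g w⟩

private theorem eqv_img {φ : V ≃ₗ[k] V'} (hφ : ∀ g x, φ (ρ g x) = ρ' g (φ x))
    {W : Submodule k V} (hW : Stab ρ W) :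
    Eqv (sub ρ W hW) (sub ρ' (W.map (φ : V →ₗ[k] V')) (stab_img hφ hW)) :=
  ⟨φ.submoduleMap W, fun g x => Subtype.ext (hφ g x)⟩

private theorem irrS_img {φ : V ≃ₗ[k] V'} (hφ : ∀ g x, φ (ρ g x) = ρ' g (φ x))
    {W : Submodule k V} (hW : IrrS ρ W) : IrrS ρ' (W.map (φ : V →ₗ[k] V')) := by
  refine ⟨stab_img hφ hW.1, fun h => ?_, fun W' h1 h2 => ?_⟩
  · exact hW.2.1 (Submodule.map_eq_bot_iff.1 h)
  · have h3 : Stab ρ (W'.comap (φ : V →ₗ[k] V')) := by
      intro g x hx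
      change φ (ρ g x) ∈ W'
      rw [hφ]
      exact h1 _ _ hx
    have h5 : W'.comap (φ : V →ₗ[k] V') ≤ W := by
      intro x hx
      obtain ⟨w, hw, h6⟩ := h2 hx
      have h7 : w = x := φ.injective h6
      rw [← h7]
      exact hw
    have h6 : (W'.comap (φ : V →ₗ[k] V')).map (φ : V →ₗ[k] V') = W' :=
      Submodule.map_comap_eq_of_surjective φ.surjective W'
    rcases hW.2.2 _ h3 h5 with h7 | h7
    · left
      rw [← h6, h7, Submodule.map_bot]
    · right
      rw [← h6, h7]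

end img

variable {G : Type*} [Group G] {k : Type*} [Field k] [IsAlgClosed k] [CharP k 2] {V V' : Type u}
  [AddCommGroup V] [Module k V] [FiniteDimensional k V] [AddCommGroup V'] [Module k V']
  [FiniteDimensional k V'] {κ : G →* G}

section steps

variable {ρ : Representation k G V} {B : LinearMap.BilinForm k V} {ρ' : Representation k G V'}
  {B' : LinearMap.BilinForm k V'}

/-- the pieces -/
private def Piece (ρ : Representation k G V) (B : LinearMap.BilinForm k V)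
    (ρ' : Representation k G V') (B' : LinearMap.BilinForm k V') : Prop :=
  ∃ (X : Submodule k V) (hX : Stab ρ X) (X' : Submodule k V') (hX' : Stab ρ' X'), X ≠ ⊥ ∧
    (∀ x ∈ X, (∀ y ∈ X, B x y = 0) → x = 0) ∧ (∀ x ∈ X', (∀ y ∈ X', B' x y = 0) → x = 0) ∧
    HasPair (sub ρ X hX) (B.restrict X) (sub ρ' X' hX') (B'.restrict X')

private theorem step_hyp (hκ : ∀ g, κ (κ g) = g) (hB : TwForm κ ρ B) (hB' : TwForm κ ρ' B')
    (hs : Ss ρ) (hs' : Ss ρ') {W : Submodule k V} {W' : Submodule k V'} (hW : Stab ρ W)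
    (hW' : Stab ρ' W') (h0 : W ≠ ⊥) (hi : ∀ x ∈ W, ∀ y ∈ W, B x y = 0)
    (hi' : ∀ x ∈ W', ∀ y ∈ W', B' x y = 0) (he : Eqv (sub ρ W hW) (sub ρ' W' hW')) :
    Piece ρ B ρ' B' := by
  obtain ⟨U, hU, hd, hU0, hW0⟩ := partner hκ hB hs hW hi
  obtain ⟨U', hU', hd', hU0', hW0'⟩ := partner hκ hB' hs' hW' hi'
  have hnd := nondeg_partner hB hi hU0 hW0
  have hnd' := nondeg_partner hB' hi' hU0' hW0'
  have hX : Stab ρ (W ⊔ U) := stab_sup hW hU
  have hX' : Stab ρ' (W' ⊔ U') := stab_sup hW' hU'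
  have hle : W ≤ W ⊔ U := le_sup_left
  have hle' : W' ≤ W' ⊔ U' := le_sup_left
  refine ⟨W ⊔ U, hX, W' ⊔ U', hX', fun h => h0 (le_bot_iff.1 (h ▸ hle)), hnd, hnd', ?_⟩
  exact hasPair_hyp hκ (twForm_sub hB hX hnd) (twForm_sub hB' hX' hnd') (stab_comap' hX hW)
    (stab_comap' hX hU) (stab_comap' hX' hW') (stab_comap' hX' hU') (isCompl_comap hd)
    (isCompl_comap hd') (fun x hx y hy => hi x hx y hy) (fun x hx y hy => hi' x hx y hy)
    (fun u hu h => Subtype.ext (hU0 u hu fun w hw => h ⟨w, hle hw⟩ hw))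
    (fun u hu h => Subtype.ext (hU0' u hu fun w hw => h ⟨w, hle' hw⟩ hw))
    (eqv_trans (eqv_comap hX hW hle) (eqv_trans he (eqv_symm (eqv_comap hX' hW' hle'))))

/-- an isotropic irreducible subrepresentation of `V` gives one of `V'` -/
private theorem claim (hκ : ∀ g, κ (κ g) = g) (hB : TwForm κ ρ B) (hB' : TwForm κ ρ' B')
    (hs : Ss ρ) {φ : V ≃ₗ[k] V'} (hφ : ∀ g x, φ (ρ g x) = ρ' g (φ x))
    {W : Submodule k V} (hW : IrrS ρ W) (hi : ∀ x ∈ W, ∀ y ∈ W, B x y = 0) :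
    ∃ (W' : Submodule k V') (hW' : IrrS ρ' W'), (∀ x ∈ W', ∀ y ∈ W', B' x y = 0) ∧
      Eqv (sub ρ W hW.1) (sub ρ' W' hW'.1) := by
  have hW' : IrrS ρ' (W.map (φ : V →ₗ[k] V')) := irrS_img hφ hW
  by_cases h3 : ∀ x ∈ W.map (φ : V →ₗ[k] V'), ∀ y ∈ W.map (φ : V →ₗ[k] V'), B' x y = 0
  · exact ⟨_, hW', h3, eqv_img hφ hW.1⟩
  · obtain ⟨U, hU, hd, hU0, hW0⟩ := partner hκ hB hs hW.1 hi
    -- `U` is equivalent to `W`
    let h' : W →ₗ[k] W →ₗ[k] k := B'.compl₁₂ ((φ : V →ₗ[k] V').comp W.subtype)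
      ((φ : V →ₗ[k] V').comp W.subtype)
    have h'a : ∀ x y : W, h' x y = B' (φ x) (φ y) := fun x y => rfl
    have h'g : ∀ g x y, h' (sub ρ W hW.1 g x) (((sub ρ W hW.1).comp κ) g y) = h' x y := by
      intro g x y
      rw [h'a, h'a]
      change B' (φ (ρ g x)) (φ (ρ (κ g) y)) = _
      rw [hφ, hφ, hB'.dual]
    have h'0 : h' ≠ 0 := by
      intro h0
      refine h3 ?_
      rintro _ ⟨x, hx, rfl⟩ _ ⟨y, hy, rfl⟩
      exact congrArg (fun f : W →ₗ[k] W →ₗ[k] k => f ⟨x, hx⟩ ⟨y, hy⟩) h0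
    have h'n := pair_nondeg (irr_sub hW) (irr_comp hκ (irr_sub hW)) h'g h'0
    have hUW : Eqv ((sub ρ U hU).comp κ) ((sub ρ W hW.1).comp κ) :=
      eqv_of_pairings (ρ := sub ρ W hW.1) (B₁ := B.compl₁₂ W.subtype U.subtype) (B₂ := h')
        (fun g x y => hB.dual g x y) h'g
        (fun x hx => Subtype.ext (hW0 x x.2 fun u hu => hx ⟨u, hu⟩))
        (fun y hy => Subtype.ext (hU0 y y.2 fun w hw => hy ⟨w, hw⟩)) h'n.1 h'n.2
    obtain ⟨a, ha⟩ := hUW
    have ha' : ∀ g x, a (sub ρ U hU g x) = sub ρ W hW.1 g (a x) := by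
      intro g x
      have h4 := ha (κ g) x
      change a (sub ρ U hU (κ (κ g)) x) = sub ρ W hW.1 (κ (κ g)) (a x) at h4
      rwa [hκ] at h4
    have hUW' : Eqv (sub ρ U hU) (sub ρ W hW.1) := ⟨a, ha'⟩
    have hUirr : IrrS ρ U := by
      refine irrS_of_irr hU ?_
      have hI := irr_sub hW
      refine ⟨?_, fun Y hY => ?_⟩
      · obtain ⟨x, hx⟩ := hI.1
        exact ⟨a.symm x, fun h => hx (by rwa [LinearEquiv.map_eq_zero_iff] at h)⟩
      · have h4 : Stab (sub ρ W hW.1) (Y.map (a : U →ₗ[k] W)) := by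
          rintro g _ ⟨y, hy, rfl⟩
          exact ⟨sub ρ U hU g y, hY g y hy, ha' g y⟩
        rcases hI.2 _ h4 with h5 | h5
        · exact Or.inl (Submodule.map_eq_bot_iff.1 h5)
        · right
          refine Submodule.map_injective_of_injective a.injective ?_
          change Y.map (a : U →ₗ[k] W) = (⊤ : Submodule k U).map (a : U →ₗ[k] W)
          rw [h5, Submodule.map_top]
          exact (LinearEquiv.range a).symm
    have hU' : IrrS ρ' (U.map (φ : V →ₗ[k] V')) := irrS_img hφ hUirr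
    have hd' : W.map (φ : V →ₗ[k] V') ⊓ U.map (φ : V →ₗ[k] V') = ⊥ := by
      rw [← Submodule.map_inf _ φ.injective, hd, Submodule.map_bot]
    have he : Eqv (sub ρ' _ hW'.1) (sub ρ' _ hU'.1) :=
      eqv_trans (eqv_symm (eqv_img hφ hW.1)) (eqv_trans (eqv_symm hUW') (eqv_img hφ hU))
    obtain ⟨W₃, h3', -, h4, h5⟩ := exists_copy hκ hB' hW' hU' hd' he
    exact ⟨W₃, h3', h5, eqv_trans (eqv_img hφ hW.1) h4⟩

private theorem nd_of_not_iso (hκ : ∀ g, κ (κ g) = g) (hB : TwForm κ ρ B)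
    (hni : ∀ W : Submodule k V, IrrS ρ W → ¬ ∀ x ∈ W, ∀ y ∈ W, B x y = 0)
    (S : Submodule k V) (hS : IrrS ρ S) : ∀ x ∈ S, (∀ y ∈ S, B x y = 0) → x = 0 := by
  intro x hx h
  rcases hS.2.2 _ (stab_inf hS.1 (stab_orth hκ hB hS.1)) inf_le_left with h1 | h1
  · have h2 : x ∈ S ⊓ B.orthogonal S := ⟨hx, fun y hy => by
      rw [hB.symm]
      exact h y hy⟩
    rw [h1] at h2
    exact h2
  · refine absurd ?_ (hni S hS)
    intro a ha b hb
    have h2 : b ∈ S ⊓ B.orthogonal S := h1.symm ▸ hb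
    exact h2.2 a ha

private theorem exists_piece (hκ : ∀ g, κ (κ g) = g) (hB : TwForm κ ρ B) (hB' : TwForm κ ρ' B')
    (hs : Ss ρ) (hs' : Ss ρ') {φ : V ≃ₗ[k] V'} (hφ : ∀ g x, φ (ρ g x) = ρ' g (φ x))
    (hV : ∃ x : V, x ≠ 0) : Piece ρ B ρ' B' := by
  by_cases h1 : ∃ (W : Submodule k V), IrrS ρ W ∧ ∀ x ∈ W, ∀ y ∈ W, B x y = 0
  · obtain ⟨W, hW, hi⟩ := h1
    obtain ⟨W', hW', hi', he⟩ := claim hκ hB hB' hs hφ hW hi
    exact step_hyp hκ hB hB' hs hs' hW.1 hW'.1 hW.2.1 hi hi' he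
  have h2 : ¬ ∃ (W : Submodule k V'), IrrS ρ' W ∧ ∀ x ∈ W, ∀ y ∈ W, B' x y = 0 := by
    rintro ⟨W, hW, hi⟩
    obtain ⟨W', hW', hi', -⟩ := claim (φ := φ.symm) hκ hB' hB hs' (fun g x => by
      rw [LinearEquiv.symm_apply_eq, hφ, LinearEquiv.apply_symm_apply]) hW hi
    exact h1 ⟨W', hW', hi'⟩
  have htop : (⊤ : Submodule k V) ≠ ⊥ := by
    obtain ⟨x, hx⟩ := hV
    exact (Submodule.ne_bot_iff _).2 ⟨x, Submodule.mem_top, hx⟩
  obtain ⟨S, -, hS⟩ := exists_irrS_le (ρ := ρ) (W := ⊤) (fun _ _ _ => Submodule.mem_top) htop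
  have hS' : IrrS ρ' (S.map (φ : V →ₗ[k] V')) := irrS_img hφ hS
  have hn := nd_of_not_iso hκ hB (fun W hW hi => h1 ⟨W, hW, hi⟩) S hS
  have hn' := nd_of_not_iso hκ hB' (fun W hW hi => h2 ⟨W, hW, hi⟩) _ hS'
  exact ⟨S, hS.1, _, hS'.1, hS.2.1, hn, hn', hasPair_irr hκ (twForm_sub hB hS.1 hn)
    (twForm_sub hB' hS'.1 hn') (irr_sub hS) (eqv_img hφ hS.1)⟩

end steps

private theorem hasPair_aux {G : Type*} [Group G] {k : Type*} [Field k] [IsAlgClosed k]
    [CharP k 2] {κ : G →* G} (hκ : ∀ g, κ (κ g) = g) (n : ℕ) :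
    ∀ {V V' : Type u} [AddCommGroup V] [Module k V] [FiniteDimensional k V] [AddCommGroup V']
      [Module k V'] [FiniteDimensional k V']
      {ρ : Representation k G V} {B : LinearMap.BilinForm k V} {ρ' : Representation k G V'}
      {B' : LinearMap.BilinForm k V'}, TwForm κ ρ B → TwForm κ ρ' B' → Ss ρ → Ss ρ' →
      (∀ g, LinearMap.charpoly (ρ g) = LinearMap.charpoly (ρ' g)) →
      finrank k V = n → HasPair ρ B ρ' B' := by
  induction n using Nat.strong_induction_on with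
  | _ n ih =>
  intro V V' _ _ _ _ _ _ ρ B ρ' B' hB hB' hs hs' h hd
  obtain ⟨φ, hφ⟩ := bn hs hs' h
  by_cases hV : ∀ x : V, x = 0
  · refine hasPair_zero hV fun x => ?_
    have h1 := hV (φ.symm x)
    rwa [LinearEquiv.map_eq_zero_iff] at h1
  push Not at hV
  obtain ⟨X, hX, X', hX', hX0, hnd, hnd', hdat⟩ := exists_piece hκ hB hB' hs hs' hφ hV
  have hY := stab_orth hκ hB hX
  have hc := isCompl_orth hB hnd
  have hY' := stab_orth hκ hB' hX'
  have hc' := isCompl_orth hB' hnd'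
  have hfr := Submodule.finrank_add_eq_of_isCompl hc
  have hpos : 0 < finrank k X := by
    have : Nontrivial X := (Submodule.nontrivial_iff_ne_bot).2 hX0
    exact finrank_pos
  refine hasPair_sum hB hB' hX hY hX' hY' hc hc' (fun x hx y hy => hy x hx)
    (fun x hx y hy => hy x hx) hdat
    (ih (finrank k (B.orthogonal X)) (by omega) (twForm_sub hB hY (nondeg_orth hB hnd))
      (twForm_sub hB' hY' (nondeg_orth hB' hnd')) (ss_sub hs hY) (ss_sub hs' hY') ?_ rfl)
  intro g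
  have h1 := h g
  rw [charpoly_split hX hY hc g, charpoly_split hX' hY' hc' g,
    charpoly_eqv (eqv_of_pair hdat) g] at h1
  exact mul_left_cancel₀ (LinearMap.charpoly_monic _).ne_zero h1

theorem hasPair (hκ : ∀ g, κ (κ g) = g) {ρ : Representation k G V} {B : LinearMap.BilinForm k V}
    {ρ' : Representation k G V'} {B' : LinearMap.BilinForm k V'} (hB : TwForm κ ρ B)
    (hB' : TwForm κ ρ' B') (hs : Ss ρ) (hs' : Ss ρ')
    (h : ∀ g, LinearMap.charpoly (ρ g) = LinearMap.charpoly (ρ' g)) : HasPair ρ B ρ' B' := by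
  exact hasPair_aux hκ _ hB hB' hs hs' h rfl

end Pool.Agent.Work.MP_787500_nt.RP
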