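import Mathlib
import Pool.Agent.Work.MP_787500_nt.RB.Main
import Pool.Agent.Work.MP_787500_nt.RP.St
import Pool.Agent.Work.MP_787500_nt.RP.OfPair
import Pool.Agent.Work.MP_787500_nt.RP.Down

/-!
# RP/Main (assembly): congruent characteristic polynomials give congruent good bases over a finite extension
-/

set_option autoImplicit false
set_option linter.unusedSectionVars false

namespace Pool.Agent.Work.MP_787500_nt.RP

open Matrix Module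
open Pool.Agent.Work.MP_787500_nt.RB
open Pool.Agent.Work.MP_787500_nt.PA (toE)
open Pool.Agent.Work.MP_787500_nt.LX (mapRep mapRep_apply map_toE)
open Pool.Agent.Work.MP_787500_nt.GP (bil OE)

universe v

section one

variable {G : Type*} [Group G] {S : KR.FSys G} {κ : G →* G} {χ : G → ℤ_[2]} {E : Type v}
  [NormedField E] [NormedAlgebra ℚ_[2] E] [FiniteDimensional ℚ_[2] E] {n : ℕ}
  {ρ : G →* Matrix (Fin n) (Fin n) E} {b : Matrix (Fin n) (Fin n) E}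
  {Ω : Type v} [NormedField Ω] [NormedAlgebra ℚ_[2] Ω] [Algebra.IsAlgebraic ℚ_[2] Ω]
  [IsAlgClosed Ω] {ι : E →ₐ[ℚ_[2]] Ω} {k : Type*} [Field k] [CharP k 2] [IsAlgClosed k]
  {rd : Ω → k}

theorem norm_chi (hχ : ∀ g, (2 : ℤ_[2]) ∣ χ g - 1) (g : G) : ‖toE Ω (χ g) - 1‖ < 1 := by
  obtain ⟨x, hx⟩ := hχ g
  have h0 : ∀ y : ℤ_[2], toE Ω y = algebraMap ℚ_[2] Ω (y : ℚ_[2]) := fun y => rfl
  have h1 : toE Ω (χ g) - 1 = toE Ω 2 * toE Ω x := by
    have h2 : χ g = 1 + 2 * x := by rw [← hx]; ring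
    rw [h0, h0, h0, ← map_mul, ← map_one (algebraMap ℚ_[2] Ω), ← map_sub, h2]
    congr 1
    push_cast
    ring
  have h2 : ∀ y : ℤ_[2], ‖toE Ω y‖ = ‖y‖ := fun y => by
    rw [h0, norm_algebraMap']
    rfl
  rw [h1, norm_mul, h2, h2]
  have h3 : ‖(2 : ℤ_[2])‖ < 1 := by
    have := PadicInt.norm_p (p := 2)
    have h4 : ‖((2 : ℕ) : ℤ_[2])‖ = (2 : ℝ)⁻¹ := by exact_mod_cast this
    have h5 : ((2 : ℕ) : ℤ_[2]) = 2 := by norm_num
    rw [h5] at h4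
    rw [h4]
    norm_num
  calc ‖(2 : ℤ_[2])‖ * ‖x‖ ≤ ‖(2 : ℤ_[2])‖ * 1 :=
        mul_le_mul_of_nonneg_left x.norm_le_one (norm_nonneg _)
    _ < 1 := by rwa [mul_one]

theorem exists_one (hκ : ∀ g, κ (κ g) = g) (hχ : ∀ g, (2 : ℤ_[2]) ∣ χ g - 1)
    (hρ : KR.SmallRep S (fun g => ρ g)) (hb : b.det ≠ 0) (hbs : bᵀ = b)
    (hd : ∀ g, (ρ g)ᵀ * b * ρ (κ g) = toE E (χ g) • b) (hr : Red rd) :
    ∃ (A A' : Matrix (Fin n) (Fin n) Ω) (h : Good (fun g => mapRep ι ρ g) (b.map ι) A A'),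
      Disc (fun g => mapRep ι ρ g) ∧ Ss (toRep (resR hr h)) ∧
        TwForm κ (toRep (resR hr h)) (Matrix.toBilin' ((Aᵀ * b.map ι * A).map rd)) := by
  have hdb : ∀ g x y, bil b (ρ g *ᵥ x) (ρ (κ g) *ᵥ y) = toE E (χ g) * bil b x y := by
    intro g x y
    unfold bil
    rw [← vecMul_transpose, ← dotProduct_mulVec, mulVec_mulVec, mulVec_mulVec, hd, smul_mulVec,
      dotProduct_smul, smul_eq_mul]
  obtain ⟨A, A', hA⟩ := exists_good hρ hb hbs hdb ι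
  have hA0 : Good (fun g => mapRep ι ρ g) (b.map ι) A A' := hA
  have hdisc : Disc (fun g => mapRep ι ρ g) := disc_of ι fun g => ρ g
  have hbs' : (b.map ι)ᵀ = b.map ι := by
    conv_rhs => rw [← hbs]
    rfl
  have hmm : ∀ M N : Matrix (Fin n) (Fin n) E, (M * N).map ι = M.map ι * N.map ι := fun M N =>
    Matrix.map_mul
  have hd' : ∀ g, (mapRep ι ρ g)ᵀ * b.map ι * mapRep ι ρ (κ g) = toE Ω (χ g) • b.map ι := by
    intro g
    have e1 : (mapRep ι ρ g)ᵀ = (ρ g)ᵀ.map ι := rfl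
    have e2 : mapRep ι ρ (κ g) = (ρ (κ g)).map ι := rfl
    rw [e1, e2, ← hmm, ← hmm, hd, ← map_toE ι]
    ext i j
    exact map_mul ι _ _
  obtain ⟨A₁, A₁', hA₁, hss⟩ := exists_ss (κ := κ) hκ hr hdisc hA0 hbs' (norm_chi hχ) hd'
  exact ⟨A₁, A₁', hA₁, hdisc, hss, twForm_res (κ := κ) hr hA₁ hbs' (norm_chi hχ) hd'⟩

end one

theorem exists_goodP {G : Type*} [Group G] {S : KR.FSys G} {κ : G →* G}
    (hκ : ∀ g, κ (κ g) = g) {χ : G → ℤ_[2]} (hχ : ∀ g, (2 : ℤ_[2]) ∣ χ g - 1) {E : Type v}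
    [NormedField E] [NormedAlgebra ℚ_[2] E] [FiniteDimensional ℚ_[2] E] {n : ℕ}
    {ρ ρ' : G →* Matrix (Fin n) (Fin n) E} (hρ : KR.SmallRep S (fun g => ρ g))
    (hρ' : KR.SmallRep S (fun g => ρ' g)) {b b' : Matrix (Fin n) (Fin n) E} (hb : b.det ≠ 0)
    (hb' : b'.det ≠ 0) (hbs : bᵀ = b) (hbs' : b'ᵀ = b')
    (hd : ∀ g, (ρ g)ᵀ * b * ρ (κ g) = toE E (χ g) • b)
    (hd' : ∀ g, (ρ' g)ᵀ * b' * ρ' (κ g) = toE E (χ g) • b')
    (hch : ∀ g i, ‖(ρ g).charpoly.coeff i - (ρ' g).charpoly.coeff i‖ < 1) :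
    ∃ (E' : Type v) (_ : NormedField E') (_ : NormedAlgebra ℚ_[2] E')
      (_ : FiniteDimensional ℚ_[2] E') (ι : E →ₐ[ℚ_[2]] E')
      (A A' B B' : Matrix (Fin n) (Fin n) E'),
      GoodP (fun g => mapRep ι ρ g) (fun g => mapRep ι ρ' g) (b.map ι) (b'.map ι) A A' B B' := by
  obtain ⟨Ω, i1, i2, ι, k, i3, rd, i4, i5, i6, i7, hr⟩ := exists_omega E
  have hfin : Algebra.IsAlgebraic ℚ_[2] E := Algebra.IsAlgebraic.of_finite ℚ_[2] E
  have hnorm : ∀ x, ‖ι x‖ = ‖x‖ := norm_map_eq ι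
  obtain ⟨A, A', hA, hD, hs, ht⟩ := exists_one (ι := ι) hκ hχ hρ hb hbs hd hr
  obtain ⟨B, B', hB, hD', hs', ht'⟩ := exists_one (ι := ι) hκ hχ hρ' hb' hbs' hd' hr
  have hch' : ∀ g i, ‖(mapRep ι ρ g).charpoly.coeff i - (mapRep ι ρ' g).charpoly.coeff i‖ < 1 := by
    intro g i
    have h1 : ∀ (σ : G →* Matrix (Fin n) (Fin n) E), (mapRep ι σ g).charpoly.coeff i =
        ι ((σ g).charpoly.coeff i) := by
      intro σ
      have h2 : mapRep ι σ g = (σ g).map (ι : E →+* Ω) := rfl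
      rw [h2, Matrix.charpoly_map, Polynomial.coeff_map]
      rfl
    rw [h1, h1, ← map_sub, hnorm]
    exact hch g i
  have hP : HasPair (toRep (resR hr hA)) (Matrix.toBilin' ((Aᵀ * b.map ι * A).map rd))
      (toRep (resR hr hB)) (Matrix.toBilin' ((Bᵀ * b'.map ι * B).map rd)) := by
    refine hasPair hκ ht ht' hs hs' fun g => ?_
    have h1 : ∀ R : G →* Matrix (Fin n) (Fin n) k, LinearMap.charpoly (toRep R g) = (R g).charpoly :=
      fun R => Matrix.charpoly_mulVecLin _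
    rw [h1, h1]
    exact charpoly_pair hr hA hB hch' g
  obtain ⟨A₁, A₁', B₁, B₁', hG⟩ := exists_of_pair hr hD hD' hA hB hP
  exact exists_downP ι hG

end Pool.Agent.Work.MP_787500_nt.RP
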