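import Mathlib
import Pool.Agent.Work.MP_787500_nt.CP.RDefs

/-!
Congruent conjugate self-dual representations: definitions used in the statement of the theorem without a lattice. The other
definitions are in `CP/RDefs.lean`, `CP/FDefs.lean`, `ER/FDefs.lean`, `QX/FDefs.lean`, `PA/ParityDefs.lean`,
`GP/FinDefs.lean`, `GP/StDefs.lean`, `HP/BKDefs.lean` and `LA/FDefs.lean`.
-/

set_option autoImplicit false

namespace Pool.Agent.Work.MP_787500_nt.Parity

open NumberField Matrix

section group

variable {G : Type*} [Group G] {E : Type*} [NormedField E] {n : ℕ}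

/-- The characteristic polynomials of `ρ g` and of `ρ' g` are congruent modulo the maximal ideal, for all `g`. -/
def CongruentPoly (ρ ρ' : G →* Matrix (Fin n) (Fin n) E) : Prop :=
  ∀ g i, ‖(ρ g).charpoly.coeff i - (ρ' g).charpoly.coeff i‖ < 1

end group

section galois

universe u

variable {K : Type u} [Field K] {E : Type*} [NormedField E] {n : ℕ}

/-- The condition at the divisors `l` of `D` in `T`: both representations are semistable on the inertia groups at all the
`R l`; or the representations are congruent on a self-dual lattice `Λ`, and at each of the `R l` they are both semistable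
or isomorphic by a matrix that is congruent to 1 on `Λ`. -/
def CongruentAt (D : ℕ) (T : Finset ℕ) (R : ℕ → Ideal (𝓞 (AlgebraicClosure K)))
    (ρ ρ' : AbsGal K →* Matrix (Fin n) (Fin n) E) (b b' : Matrix (Fin n) (Fin n) E) : Prop :=
  (∀ l ∈ T, l ∣ D → SemistableOn ((R l).inertia (AbsGal K)) ρ ∧
    SemistableOn ((R l).inertia (AbsGal K)) ρ') ∨
  ∃ Λ : Set (Fin n → E), IsCongruent Λ ρ ρ' b b' ∧
    ∀ l ∈ T, l ∣ D → SemistableOrIso Λ ρ ρ' (R l)

end galois

end Pool.Agent.Work.MP_787500_nt.Parity
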