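import Mathlib
import Pool.Agent.Work.MP_787500_nt.RP.Defs

/-!
# RP/Conj (size M): everything is invariant under a change of basis

`x ↦ (fun t => A *ᵥ x t)` is a linear automorphism of the space of functions with inverse `x ↦ (fun t => A' *ᵥ x t)`; it maps `cjL A L` onto `L`.
* `cj_dual`: matrix identity: `(A' ρ A)ᵀ (Aᵀ b A) (A' ρ₂ A) = Aᵀ ρᵀ (A A')ᵀ b (A A') ρ₂ A`. Continuity of `g ↦ A' * ρ g * A`.
* `cj_cob`, `cj_coc`: `x σ = A' ρ σ A v - v ↔ A x σ = ρ σ (A v) - A v`.
* `cj_selmer`: `IsPerp` for `cj`: `x ⬝ᵥ ((Aᵀ b A) *ᵥ (A' B σ A y)) = (A x) ⬝ᵥ (b *ᵥ (B σ (A y)))`.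
* `cj_number`: `dimModulo` and `finrank` are preserved by the linear automorphism (`Submodule.equivMapOfInjective`, `LinearEquiv` of
  quotients).
* `cj_fixed`, `cj_quot`, `cj_semi`: the same for vectors.
-/

set_option autoImplicit false
set_option linter.unusedSectionVars false

namespace Pool.Agent.Work.MP_787500_nt.RP

open Matrix Module

variable {E : Type*} [NormedField E] {n : ℕ} {G : Type*} [Group G] {A A' : Matrix (Fin n) (Fin n) E}
  {ρ : G →* Matrix (Fin n) (Fin n) E} {b : Matrix (Fin n) (Fin n) E}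

private theorem mv_cancel {M N : Matrix (Fin n) (Fin n) E} (h : M * N = 1) (v : Fin n → E) :
    M *ᵥ (N *ᵥ v) = v := by rw [mulVec_mulVec, h, one_mulVec]

/-- the automorphism of the space of vectors -/
private def eV (h' : A' * A = 1) (h : A * A' = 1) : (Fin n → E) ≃ₗ[E] (Fin n → E) where
  toFun v := A *ᵥ v
  map_add' v w := mulVec_add A v w
  map_smul' c v := mulVec_smul A c v
  invFun v := A' *ᵥ v
  left_inv v := mv_cancel h' v
  right_inv v := mv_cancel h v

/-- the automorphism of the space of functions -/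
private def eX (h' : A' * A = 1) (h : A * A' = 1) (X : Type*) :
    (X → Fin n → E) ≃ₗ[E] (X → Fin n → E) where
  toFun x t := A *ᵥ x t
  map_add' x y := by
    funext t
    exact mulVec_add A (x t) (y t)
  map_smul' c x := by
    funext t
    exact mulVec_smul A c (x t)
  invFun x t := A' *ᵥ x t
  left_inv x := by
    funext t
    exact mv_cancel h' (x t)
  right_inv x := by
    funext t
    exact mv_cancel h (x t)

private theorem cjL_comap (h' : A' * A = 1) (h : A * A' = 1) {X : Type*}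
    (L : Submodule E (X → Fin n → E)) :
    cjL A L = L.comap (eX h' h X).toLinearMap := rfl

private theorem cj_dim (h' : A' * A = 1) (h : A * A' = 1) {X : Type*}
    (M B : Submodule E (X → Fin n → E)) :
    Parity.dimModulo (cjL A M) (cjL A B) = Parity.dimModulo M B := by
  unfold Parity.dimModulo
  rw [cjL_comap h' h, cjL_comap h' h]
  refine (Submodule.Quotient.equiv _ _ ((eX h' h X).ofSubmodule' M) ?_).finrank_eq
  ext y
  constructor
  · rintro ⟨x, hx, rfl⟩
    exact hx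
  · intro hy
    refine ⟨((eX h' h X).ofSubmodule' M).symm y, ?_, LinearEquiv.apply_symm_apply _ _⟩
    show (eX h' h X) ((((eX h' h X).ofSubmodule' M).symm y : Submodule.comap _ M) :
      X → Fin n → E) ∈ B
    rw [LinearEquiv.ofSubmodule'_symm_apply, LinearEquiv.apply_symm_apply]
    exact hy

private theorem cj_mv (_h' : A' * A = 1) (h : A * A' = 1) (M : Matrix (Fin n) (Fin n) E)
    (v : Fin n → E) : A *ᵥ ((A' * M * A) *ᵥ v) = M *ᵥ (A *ᵥ v) := by
  rw [mulVec_mulVec, mulVec_mulVec]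
  congr 1
  rw [← mul_assoc, ← mul_assoc, h, one_mul]

private theorem mv_inj (h' : A' * A = 1) {v w : Fin n → E} (e : A *ᵥ v = A *ᵥ w) : v = w := by
  rw [← mv_cancel h' v, e, mv_cancel h' w]

private theorem cob_iff (h' : A' * A = 1) (h : A * A' = 1) {X : Type*} (S : Set X)
    (B : X → Matrix (Fin n) (Fin n) E) (x : X → Fin n → E) :
    (∃ v, ∀ t ∈ S, x t = (A' * B t * A) *ᵥ v - v) ↔
      ∃ v, ∀ t ∈ S, A *ᵥ x t = B t *ᵥ v - v := by
  constructor
  · rintro ⟨v, hv⟩
    refine ⟨A *ᵥ v, fun t ht => ?_⟩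
    rw [hv t ht, mulVec_sub, cj_mv h' h]
  · rintro ⟨v, hv⟩
    refine ⟨A' *ᵥ v, fun t ht => ?_⟩
    apply mv_inj h'
    rw [hv t ht, mulVec_sub, cj_mv h' h, mv_cancel h]

private theorem fixedBy_comap (h' : A' * A = 1) (h : A * A' = 1) {X : Type*}
    (B : X → Matrix (Fin n) (Fin n) E) : Parity.fixedBy (fun t => A' * B t * A) =
      (Parity.fixedBy B).comap (eV h' h).toLinearMap := by
  ext v
  constructor
  · intro hv t
    show B t *ᵥ (A *ᵥ v) = A *ᵥ v
    rw [← cj_mv h' h, hv t]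
  · intro hv t
    apply mv_inj h'
    rw [cj_mv h' h]
    exact hv t

private theorem finrank_comap (h' : A' * A = 1) (h : A * A' = 1) (W : Submodule E (Fin n → E)) :
    finrank E (W.comap (eV h' h).toLinearMap) = finrank E W :=
  ((eV h' h).ofSubmodule' W).finrank_eq

theorem cj_fin (h' : A' * A = 1) (h : A * A' = 1) {X : Type*} {L : Submodule E (X → Fin n → E)} :
    FiniteDimensional E (cjL A L) ↔ FiniteDimensional E L := by
  rw [cjL_comap h' h]
  exact ⟨fun hf => Module.Finite.equiv ((eX h' h X).ofSubmodule' L),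
    fun hf => Module.Finite.equiv ((eX h' h X).ofSubmodule' L).symm⟩

theorem cj_mono (h' : A' * A = 1) (h : A * A' = 1) {X : Type*} {L M : Submodule E (X → Fin n → E)} :
    cjL A L ≤ cjL A M ↔ L ≤ M := by
  rw [cjL_comap h' h, cjL_comap h' h]
  exact Submodule.comap_le_comap_iff_of_surjective (f := (eX h' h X).toLinearMap)
    (eX h' h X).surjective

theorem cj_cob (h' : A' * A = 1) (h : A * A' = 1) {X : Type*} (B : X → Matrix (Fin n) (Fin n) E) :
    Parity.coboundaries (fun t => A' * B t * A) = cjL A (Parity.coboundaries B) := by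
  ext x
  have := cob_iff h' h Set.univ B x
  simp only [Set.mem_univ, forall_const] at this
  exact this

theorem cj_fixed (h' : A' * A = 1) (h : A * A' = 1) {X : Type*}
    (B : X → Matrix (Fin n) (Fin n) E) :
    finrank E (Parity.fixedBy fun t => A' * B t * A) = finrank E (Parity.fixedBy B) := by
  rw [fixedBy_comap h' h, finrank_comap]

theorem cj_quot (h' : A' * A = 1) (h : A * A' = 1) {D I : Subgroup G} :
    Parity.quotDim D I (cj h' h ρ) = Parity.quotDim D I ρ := by
  have e1 : Parity.fixedBy (fun σ : I => cj h' h ρ σ) =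
      (Parity.fixedBy (fun σ : I => ρ σ)).comap (eV h' h).toLinearMap :=
    fixedBy_comap h' h (fun σ : I => ρ σ)
  have e2 : Parity.fixedModulo (fun σ : D => cj h' h ρ σ)
      ((Parity.fixedBy (fun σ : I => ρ σ)).comap (eV h' h).toLinearMap) =
      (Parity.fixedModulo (fun σ : D => ρ σ) (Parity.fixedBy (fun σ : I => ρ σ))).comap
        (eV h' h).toLinearMap := by
    ext v
    have e3 : ∀ σ : D, A *ᵥ (cj h' h ρ σ *ᵥ v - v) = ρ σ *ᵥ (A *ᵥ v) - A *ᵥ v := by
      intro σ
      rw [mulVec_sub, cj_apply, cj_mv h' h]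
    constructor
    · intro hv σ
      have h1 : A *ᵥ (cj h' h ρ σ *ᵥ v - v) ∈ Parity.fixedBy (fun σ : I => ρ σ) := hv σ
      rw [e3] at h1
      exact h1
    · intro hv σ
      show A *ᵥ (cj h' h ρ σ *ᵥ v - v) ∈ Parity.fixedBy (fun σ : I => ρ σ)
      rw [e3]
      exact hv σ
  unfold Parity.quotDim
  rw [e1, e2, finrank_comap, finrank_comap]

theorem cj_semi (h' : A' * A = 1) (h : A * A' = 1) {I : Subgroup G}
    (hs : Parity.SemistableOn I ρ) : Parity.SemistableOn I (cj h' h ρ) := by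
  intro g hg
  have e : cj h' h ρ g - 1 = A' * (ρ g - 1) * A := by
    rw [cj_apply, mul_sub, sub_mul, mul_one, h']
  rw [e]
  calc A' * (ρ g - 1) * A * (A' * (ρ g - 1) * A) = A' * (ρ g - 1) * (A * A') * (ρ g - 1) * A := by
        noncomm_ring
    _ = A' * ((ρ g - 1) * (ρ g - 1)) * A := by
        rw [h]
        noncomm_ring
    _ = 0 := by rw [hs g hg, mul_zero, zero_mul]

variable [TopologicalSpace G]

theorem cj_dual (h' : A' * A = 1) (h : A * A' = 1) {I : Set G} {χ : G → E} {κ : G → G}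
    (hρ : Parity.IsDualRep I χ κ ρ b) : Parity.IsDualRep I χ κ (cj h' h ρ) (Aᵀ * b * A) := by
  refine ⟨?_, fun σ hσ => ?_, ?_, fun σ => ?_⟩
  · show Continuous fun g => A' * ρ g * A
    exact (continuous_const.matrix_mul hρ.cont).matrix_mul continuous_const
  · rw [cj_apply, hρ.unram σ hσ, mul_one, h']
  · rw [transpose_mul, transpose_mul, transpose_transpose, hρ.symm, mul_assoc]
  · have h'' : A'ᵀ * Aᵀ = 1 := by rw [← transpose_mul, h, transpose_one]
    rw [cj_apply, cj_apply, transpose_mul, transpose_mul]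
    calc Aᵀ * ((ρ σ)ᵀ * A'ᵀ) * (Aᵀ * b * A) * (A' * ρ (κ σ) * A) =
        Aᵀ * (ρ σ)ᵀ * (A'ᵀ * Aᵀ) * b * (A * A') * ρ (κ σ) * A := by noncomm_ring
      _ = Aᵀ * ((ρ σ)ᵀ * b * ρ (κ σ)) * A := by
        rw [h, h'']
        noncomm_ring
      _ = χ σ • (Aᵀ * b * A) := by
        rw [hρ.dual, mul_smul_comm, smul_mul_assoc]

private theorem coc_iff (h' : A' * A = 1) (h : A * A' = 1) {X : Type*} [Group X]
    [TopologicalSpace X] (B : X → Matrix (Fin n) (Fin n) E) (x : X → Fin n → E) :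
    Parity.IsCocycle (fun t => A' * B t * A) x ↔ Parity.IsCocycle B fun t => A *ᵥ x t := by
  constructor
  · rintro ⟨hc, hx⟩
    refine ⟨continuous_const.matrix_mulVec hc, fun σ τ => ?_⟩
    show A *ᵥ x (σ * τ) = A *ᵥ x σ + B σ *ᵥ (A *ᵥ x τ)
    rw [hx, mulVec_add, cj_mv h' h]
  · rintro ⟨hc, hx⟩
    refine ⟨?_, fun σ τ => ?_⟩
    · have e : x = fun t => A' *ᵥ (A *ᵥ x t) := by
        funext t
        exact (mv_cancel h' (x t)).symm
      rw [e]
      exact continuous_const.matrix_mulVec hc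
    · apply mv_inj h'
      rw [mulVec_add, cj_mv h' h]
      exact hx σ τ

private theorem perp_iff (h' : A' * A = 1) (h : A * A' = 1) {X : Type*} [Group X]
    [TopologicalSpace X] (χ : X → E) (B : X → Matrix (Fin n) (Fin n) E)
    (b : Matrix (Fin n) (Fin n) E) (L : Submodule E (X → Fin n → E)) (y : X → Fin n → E) :
    Parity.IsPerp χ (fun t => A' * B t * A) (Aᵀ * b * A) (cjL A L) y ↔
      Parity.IsPerp χ B b L fun t => A *ᵥ y t := by
  have e : ∀ (u w : Fin n → E) (σ : X), u ⬝ᵥ ((Aᵀ * b * A) *ᵥ ((A' * B σ * A) *ᵥ w)) =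
      (A *ᵥ u) ⬝ᵥ (b *ᵥ (B σ *ᵥ (A *ᵥ w))) := by
    intro u w σ
    rw [← mulVec_mulVec, cj_mv h' h, ← mulVec_mulVec, dotProduct_mulVec u, vecMul_transpose]
  constructor
  · rintro ⟨h1, h2⟩
    refine ⟨(coc_iff h' h B y).1 h1, fun x hx => ?_⟩
    obtain ⟨z, hz, hz'⟩ := h2 (fun t => A' *ᵥ x t) (by
      show (fun t => A *ᵥ (A' *ᵥ x t)) ∈ L
      have e2 : (fun t => A *ᵥ (A' *ᵥ x t)) = x := by
        funext t
        exact mv_cancel h (x t)
      rw [e2]
      exact hx)
    refine ⟨z, hz, fun σ τ => ?_⟩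
    have e3 := hz' σ τ
    rw [e, mv_cancel h] at e3
    exact e3
  · rintro ⟨h1, h2⟩
    refine ⟨(coc_iff h' h B y).2 h1, fun x hx => ?_⟩
    obtain ⟨z, hz, hz'⟩ := h2 _ hx
    refine ⟨z, hz, fun σ τ => ?_⟩
    rw [e]
    exact hz' σ τ

theorem cj_between (h' : A' * A = 1) (h : A * A' = 1) {D : Subgroup G}
    {L : Submodule E (D → Fin n → E)}
    (hL : Parity.Between (Parity.coboundaries (fun σ : D => ρ σ)) L
      (Parity.cocycles (fun σ : D => ρ σ))) :
    Parity.Between (Parity.coboundaries (fun σ : D => cj h' h ρ σ)) (cjL A L)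
      (Parity.cocycles (fun σ : D => cj h' h ρ σ)) := by
  have c1 : Parity.coboundaries (fun σ : D => cj h' h ρ σ) =
      cjL A (Parity.coboundaries fun σ : D => ρ σ) := cj_cob h' h (fun σ : D => ρ σ)
  have c2 : Parity.cocycles (fun σ : D => cj h' h ρ σ) =
      cjL A (Parity.cocycles fun σ : D => ρ σ) := by
    ext x
    exact coc_iff h' h (fun σ : D => ρ σ) x
  rw [c1, c2]
  exact ⟨(cj_mono h' h).2 hL.1, (cj_mono h' h).2 hL.2⟩

theorem cj_selmer (h' : A' * A = 1) (h : A * A' = 1) {N : Set (Subgroup G)} {χ : G → E} {κ : G → G}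
    {D : Subgroup G} {L : Submodule E (D → Fin n → E)} :
    Parity.selmerBK N χ κ (cj h' h ρ) (Aᵀ * b * A) D (cjL A L) =
      cjL A (Parity.selmerBK N χ κ ρ b D L) := by
  ext x
  have d1 := coc_iff h' h (fun σ : G => ρ σ) x
  have d2 : ∀ I : Subgroup G, _ := fun I => cob_iff h' h (I : Set G) (fun σ : G => ρ σ) x
  have d3 := perp_iff h' h (fun σ : D => χ σ) (fun σ : D => ρ (κ σ)) b L
    (fun σ : D => x (κ σ))
  constructor
  · rintro ⟨h1, h2, h3, h4⟩
    exact ⟨d1.1 h1, fun I hI => (d2 I).1 (h2 I hI), h3, d3.1 h4⟩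
  · rintro ⟨h1, h2, h3, h4⟩
    exact ⟨d1.2 h1, fun I hI => (d2 I).2 (h2 I hI), h3, d3.2 h4⟩

theorem cj_number (h' : A' * A = 1) (h : A * A' = 1) {N : Set (Subgroup G)} {χ : G → E} {κ : G → G}
    {D : Subgroup G} {L : Submodule E (D → Fin n → E)} :
    Parity.selmerNumber N χ κ (cj h' h ρ) (Aᵀ * b * A) D (cjL A L) =
      Parity.selmerNumber N χ κ ρ b D L := by
  have c1 : Parity.coboundaries (fun σ : D => cj h' h ρ σ) =
      cjL A (Parity.coboundaries fun σ : D => ρ σ) := cj_cob h' h (fun σ : D => ρ σ)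
  have c2 : Parity.coboundaries (cj h' h ρ) = cjL A (Parity.coboundaries ρ) :=
    cj_cob h' h (fun σ : G => ρ σ)
  have c3 : finrank E (Parity.fixedBy fun σ : G => cj h' h ρ σ) =
      finrank E (Parity.fixedBy fun σ : G => ρ σ) := cj_fixed h' h (fun σ : G => ρ σ)
  have c4 : finrank E (Parity.fixedBy fun σ : D => cj h' h ρ σ) =
      finrank E (Parity.fixedBy fun σ : D => ρ σ) := cj_fixed h' h (fun σ : D => ρ σ)
  unfold Parity.selmerNumber
  rw [cj_selmer h' h, c1, c2, c3, c4, cj_dim h' h, cj_dim h' h]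

end Pool.Agent.Work.MP_787500_nt.RP
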