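import Mathlib
import Pool.Agent.Work.MP_787500_nt.RP.Defs
import Pool.Agent.Work.MP_787500_nt.RB.Res

/-!
# RP/ToC (size S-M): congruent good bases give congruent representations on the standard lattice (MATRICES ONLY)

`Λ = {x | ∀ i, ‖x i‖ ≤ 1}` (the norm of `Fin n → E` is the maximum norm; `r = 1`, `R = 1` for `nhds_zero`, `bounded`). `F = Aᵀ * b * A` is
integral with `‖det F‖ = 1`, so `F' = (det F)⁻¹ • adjugate F` is integral and `F * F' = 1`. `dual`: if `x`, `y` are integral then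
`x ⬝ᵥ (F *ᵥ y)` is; conversely take `y = F' *ᵥ Pi.single i 1`: the value is `x i`. The same for `Bᵀ * b' * B`. `stable`: integral matrices.
`congr`: the entries of `(A' * ρ g * A) x - (B' * ρ' g * B) x` have norm `< 1`: if the vector is 0 take `a = 0`; otherwise let `a` be an entry of
maximal norm (`< 1`, not 0) and `y = a⁻¹ • (the vector)` (compare RB/ToRes.lean, proved, which has the same step for `IsSmallIn`).
`form`: `x ⬝ᵥ ((F - F₂) *ᵥ y)` is a finite sum of products of norm `< 1` (ultrametric).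
-/

set_option autoImplicit false
set_option linter.unusedSectionVars false

namespace Pool.Agent.Work.MP_787500_nt.RP

open Matrix Module
open Pool.Agent.Work.MP_787500_nt.RB

section aux

variable {E : Type*} [NormedField E] [NormedAlgebra ℚ_[2] E] {n : ℕ}

private theorem norm_sum_lt {ι : Type*} (s : Finset ι) (f : ι → E) (h : ∀ i ∈ s, ‖f i‖ < 1) :
    ‖∑ i ∈ s, f i‖ < 1 := by
  classical
  have hu := Gn.ultra 2 E
  induction s using Finset.induction_on with
  | empty => simp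
  | insert a s ha ih =>
    rw [Finset.sum_insert ha]
    exact (IsUltrametricDist.norm_add_le_max _ _).trans_lt
      (max_lt (h a (Finset.mem_insert_self a s)) (ih fun i hi => h i (Finset.mem_insert_of_mem hi)))

private theorem norm_prod_le {ι : Type*} (s : Finset ι) (f : ι → E) (h : ∀ i ∈ s, ‖f i‖ ≤ 1) :
    ‖∏ i ∈ s, f i‖ ≤ 1 := by
  classical
  induction s using Finset.induction_on with
  | empty => simp
  | insert a s ha ih =>
    rw [Finset.prod_insert ha, norm_mul]
    exact mul_le_one₀ (h a (Finset.mem_insert_self a s)) (norm_nonneg _)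
      (ih fun i hi => h i (Finset.mem_insert_of_mem hi))

private theorem norm_det_le {M : Matrix (Fin n) (Fin n) E} (hM : ∀ i j, ‖M i j‖ ≤ 1) :
    ‖M.det‖ ≤ 1 := by
  rw [Matrix.det_apply]
  refine norm_sum_le _ _ fun σ _ => ?_
  have h1 : ‖∏ i, M (σ i) i‖ ≤ 1 := norm_prod_le _ _ fun i _ => hM _ _
  rcases Int.units_eq_one_or (Equiv.Perm.sign σ) with h2 | h2
  · rw [h2, one_smul]
    exact h1
  · rw [h2, Units.neg_smul, one_smul, norm_neg]
    exact h1

private theorem norm_adj_le {M : Matrix (Fin n) (Fin n) E} (hM : ∀ i j, ‖M i j‖ ≤ 1) (i j : Fin n) :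
    ‖M.adjugate i j‖ ≤ 1 := by
  rw [Matrix.adjugate_apply]
  refine norm_det_le fun k l => ?_
  rw [Matrix.updateRow_apply]
  split_ifs
  · rw [Pi.single_apply]
    split_ifs <;> simp
  · exact hM k l

private theorem norm_mulVec_le {M : Matrix (Fin n) (Fin n) E} (hM : ∀ i j, ‖M i j‖ ≤ 1)
    {z : Fin n → E} (hz : ∀ i, ‖z i‖ ≤ 1) (i : Fin n) : ‖(M *ᵥ z) i‖ ≤ 1 := by
  rw [Matrix.mulVec, dotProduct]
  refine norm_sum_le _ _ fun j _ => ?_
  rw [norm_mul]
  exact mul_le_one₀ (hM i j) (norm_nonneg _) (hz j)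

private theorem norm_mulVec_lt {M : Matrix (Fin n) (Fin n) E} (hM : ∀ i j, ‖M i j‖ < 1)
    {z : Fin n → E} (hz : ∀ i, ‖z i‖ ≤ 1) (i : Fin n) : ‖(M *ᵥ z) i‖ < 1 := by
  rw [Matrix.mulVec, dotProduct]
  refine norm_sum_lt _ _ fun j _ => ?_
  rw [norm_mul]
  exact mul_lt_one_of_nonneg_of_lt_one_left (norm_nonneg _) (hM i j) (hz j)

end aux

private theorem selfDual_of {E : Type*} [NormedField E] [NormedAlgebra ℚ_[2] E] {n : ℕ}
    {F : Matrix (Fin n) (Fin n) E} (hFi : ∀ i j, ‖F i j‖ ≤ 1) (hdn : ‖F.det‖ = 1) :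
    Parity.SelfDual F {x : Fin n → E | ∀ i, ‖x i‖ ≤ 1} := by
  have hdet : F.det ≠ 0 := by
    intro h0
    rw [h0, norm_zero] at hdn
    exact zero_ne_one hdn
  refine ⟨fun x => ⟨fun hx y hy => ?_, fun hx i => ?_⟩, ⟨1, fun x hx => ?_⟩, ⟨1, one_pos, fun x hx i => ?_⟩⟩
  · rw [dotProduct]
    refine norm_sum_le _ _ fun i _ => ?_
    rw [norm_mul]
    exact mul_le_one₀ (hx i) (norm_nonneg _) (norm_mulVec_le hFi hy i)
  · have hF' : F * (F.det⁻¹ • F.adjugate) = 1 := by
      rw [Matrix.mul_smul, Matrix.mul_adjugate, smul_smul, inv_mul_cancel₀ hdet, one_smul]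
    have hF'i : ∀ i j, ‖(F.det⁻¹ • F.adjugate) i j‖ ≤ 1 := by
      intro i j
      rw [Matrix.smul_apply, norm_smul, norm_inv, hdn, inv_one, one_mul]
      exact norm_adj_le hFi i j
    have h1 := hx ((F.det⁻¹ • F.adjugate) *ᵥ Pi.single i 1) (by
      intro k
      refine norm_mulVec_le hF'i (fun l => ?_) k
      rw [Pi.single_apply]
      split_ifs <;> simp)
    rw [Matrix.mulVec_mulVec, hF', Matrix.one_mulVec, dotProduct_single, mul_one] at h1
    exact h1
  · exact (pi_norm_le_iff_of_nonneg zero_le_one).2 hx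
  · exact (norm_le_pi_norm x i).trans hx.le

private theorem congruentOn_of {E : Type*} [NormedField E] [NormedAlgebra ℚ_[2] E] {n : ℕ}
    {P Q : Matrix (Fin n) (Fin n) E} (h : ∀ i j, ‖(P - Q) i j‖ < 1) :
    Parity.CongruentOn {x : Fin n → E | ∀ i, ‖x i‖ ≤ 1} P Q := by
  intro x hx
  rw [← Matrix.sub_mulVec]
  set v := (P - Q) *ᵥ x with hv
  have hv1 : ∀ i, ‖v i‖ < 1 := fun i => norm_mulVec_lt h hx i
  by_cases h0 : v = 0
  · refine ⟨0, by simp, 0, ?_, ?_⟩
    · intro i
      rw [Pi.zero_apply, norm_zero]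
      exact zero_le_one
    · rw [smul_zero, h0]
  · obtain ⟨j, hj⟩ := Function.ne_iff.1 h0
    have : Nonempty (Fin n) := ⟨j⟩
    obtain ⟨i0, hi0⟩ := Finite.exists_max (fun i => ‖v i‖)
    have ha : v i0 ≠ 0 := by
      intro h1
      have h2 := hi0 j
      simp only [h1, norm_zero] at h2
      exact hj (norm_le_zero_iff.1 h2)
    refine ⟨v i0, hv1 i0, (v i0)⁻¹ • v, ?_, ?_⟩
    · intro i
      rw [Pi.smul_apply, norm_smul, norm_inv]
      rw [inv_mul_le_one₀ (norm_pos_iff.2 ha)]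
      exact hi0 i
    · rw [smul_smul, mul_inv_cancel₀ ha, one_smul]

theorem isCongruent_of {G : Type*} [Group G] {E : Type*} [NormedField E] [NormedAlgebra ℚ_[2] E]
    {n : ℕ} {ρ ρ' : G → Matrix (Fin n) (Fin n) E} {b b' A A' B B' : Matrix (Fin n) (Fin n) E}
    (h : GoodP ρ ρ' b b' A A' B B') :
    Parity.IsCongruent {x : Fin n → E | ∀ i, ‖x i‖ ≤ 1} (fun g => A' * ρ g * A)
      (fun g => B' * ρ' g * B) (Aᵀ * b * A) (Bᵀ * b' * B) := by
  refine ⟨selfDual_of h.one.un h.one.det, selfDual_of h.two.un h.two.det,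
    fun g x hx i => norm_mulVec_le (h.one.st g) hx i,
    fun g x hx i => norm_mulVec_le (h.two.st g) hx i,
    fun g => congruentOn_of (h.rep g), fun x hx y hy => ?_⟩
  rw [← dotProduct_sub, ← Matrix.sub_mulVec, dotProduct]
  refine norm_sum_lt _ _ fun i _ => ?_
  rw [norm_mul]
  exact mul_lt_one_of_nonneg_of_lt_one_right (hx i) (norm_nonneg _) (norm_mulVec_lt h.form hy i)

end Pool.Agent.Work.MP_787500_nt.RP
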