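import Mathlib
import Pool.Agent.Work.MP_787500_nt.RP.Main
import Pool.Agent.Work.MP_787500_nt.RP.ToC
import Pool.Agent.Work.MP_787500_nt.RP.Conj
import Pool.Agent.Work.MP_787500_nt.RP.ExtSel
import Pool.Agent.Work.MP_787500_nt.RP.FDefs
import Pool.Agent.Work.MP_787500_nt.RB.ExtLoc
import Pool.Agent.Work.MP_787500_nt.CP.RFinal
import Pool.Agent.Work.MP_787500_nt.ER.ExtQ

/-!
# RP/Final: the theorem on congruent representations without a lattice
-/

set_option autoImplicit false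
set_option linter.unusedSectionVars false

namespace Pool.Agent.Work.MP_787500_nt.RP

open Pool.Agent.Work.MP_787500_nt Pool.Agent.Work.MP_787500_nt.Parity
open Pool.Agent.Work.MP_787500_nt.RB
open Pool.Agent.Work.MP_787500_nt.GP (inT stabD)
open Pool.Agent.Work.MP_787500_nt.PA (cyc toE)
open Pool.Agent.Work.MP_787500_nt.LX (mapRep mapRep_apply)
open NumberField Matrix

universe u w

section back

variable {G : Type*} [Group G] [TopologicalSpace G] {E : Type w} [NormedField E]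
  [NormedAlgebra ℚ_[2] E] [FiniteDimensional ℚ_[2] E] {E' : Type w} [NormedField E']
  [NormedAlgebra ℚ_[2] E'] [FiniteDimensional ℚ_[2] E'] {ι : E →ₐ[ℚ_[2]] E'} {d n : ℕ}
  {β : Fin d → E'} {ρ : G →* Matrix (Fin n) (Fin n) E} {b : Matrix (Fin n) (Fin n) E}
  {A A' : Matrix (Fin n) (Fin n) E'}

theorem back (h : FinExt ι β) (h₁ : A' * A = 1) (h₂ : A * A' = 1) {N : Set (Subgroup G)}
    {χ : G → ℤ_[2]} {κ : G → G} {D : Subgroup G} {L : Submodule E (D → Fin n → E)}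
    (hL : Between (coboundaries (fun σ : D => ρ σ)) L (Parity.cocycles (fun σ : D => ρ σ)))
    (hf : IsFinSelmer N (fun g => toE E' (χ g)) κ (cj h₁ h₂ (mapRep ι ρ)) (Aᵀ * b.map ι * A) D
      (cjL A (h.ext L))) :
    IsFinSelmer N (fun g => toE E (χ g)) κ ρ b D L ∧
      selmerNumber N (fun g => toE E' (χ g)) κ (cj h₁ h₂ (mapRep ι ρ)) (Aᵀ * b.map ι * A) D
        (cjL A (h.ext L)) = selmerNumber N (fun g => toE E (χ g)) κ ρ b D L := by
  obtain ⟨f1, f2, f3⟩ := hf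
  rw [cj_selmer, sel_ext h] at f2
  rw [cj_selmer, sel_ext h] at f3
  have g1 : FiniteDimensional E L := (h.ext_fin _).1 ((cj_fin h₁ h₂).1 f1)
  have g2 : FiniteDimensional E (selmerBK N (fun g => toE E (χ g)) κ ρ b D L) :=
    (h.ext_fin _).1 ((cj_fin h₁ h₂).1 f2)
  have c3 : coboundaries (cj h₁ h₂ (mapRep ι ρ)) = cjL A (h.ext (coboundaries ρ)) := by
    have e1 : coboundaries (cj h₁ h₂ (mapRep ι ρ)) = cjL A (coboundaries (mapRep ι ρ)) :=
      cj_cob h₁ h₂ (fun σ : G => mapRep ι ρ σ)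
    have e2 : coboundaries (mapRep ι ρ) = h.ext (coboundaries ρ) :=
      cob_ext h (fun σ : G => ρ σ)
    rw [e1, e2]
  rw [c3, cj_mono h₁ h₂] at f3
  have g3 : coboundaries ρ ≤ selmerBK N (fun g => toE E (χ g)) κ ρ b D L := by
    intro x hx
    have h1 : (fun t i => ∑ j, ι ((fun _ : Fin d => x) j t i) * β j) ∈ h.ext (coboundaries ρ) :=
      (h.ext_iff _ _).2 fun _ => hx
    have h2 := (h.ext_iff _ _).1 (f3 h1)
    have hd : 0 < d := by
      rcases Nat.eq_zero_or_pos d with h0 | h0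
      · exfalso
        subst h0
        have := h.co_spec 1
        rw [Finset.univ_eq_empty, Finset.sum_empty] at this
        exact one_ne_zero this
      · exact h0
    exact h2 ⟨0, hd⟩
  refine ⟨⟨g1, g2, g3⟩, ?_⟩
  rw [cj_number h₁ h₂, number_ext h hL g3]

theorem local_eq {K : Type u} [Field K] {ρ : AbsGal K →* Matrix (Fin n) (Fin n) E}
    (h₁ : A' * A = 1) (h₂ : A * A' = 1) (D : ℕ) (T : Finset ℕ)
    (R : ℕ → Ideal (𝓞 (AlgebraicClosure K))) :
    localNumber D T R (cj h₁ h₂ (mapRep ι ρ)) = localNumber D T R ρ := by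
  unfold localNumber
  congr 1
  · refine Finset.sum_congr rfl fun l _ => ?_
    have e1 : Module.finrank E' (fixedBy fun σ : (R l).inertia (AbsGal K) =>
        cj h₁ h₂ (mapRep ι ρ) σ) = Module.finrank E' (fixedBy fun σ : (R l).inertia (AbsGal K) =>
          mapRep ι ρ σ) := cj_fixed h₁ h₂ (fun σ : (R l).inertia (AbsGal K) => mapRep ι ρ σ)
    have e2 : Module.finrank E' (fixedBy fun σ : (R l).inertia (AbsGal K) => mapRep ι ρ σ) =
        Module.finrank E (fixedBy fun σ : (R l).inertia (AbsGal K) => ρ σ) :=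
      fixed_ext ι (fun σ : (R l).inertia (AbsGal K) => ρ σ)
    exact e1.trans e2
  · refine Finset.sum_congr rfl fun l _ => ?_
    rw [cj_quot, quotDim_fin]

end back

theorem finalP (K : Type u) [Field K] [NumberField K] (hK : Module.finrank ℚ K = 2) (D : ℕ)
    (hD : Squarefree D) (hD8 : D % 8 = 7) (s : K) (hs : s ^ 2 = -(D : K))
    (P : Ideal (𝓞 (AlgebraicClosure K))) (hP : P.IsPrime)
    (hP2 : (2 : 𝓞 (AlgebraicClosure K)) ∈ P)
    (c : AlgebraicClosure K ≃+* AlgebraicClosure K) (hc : ∀ x, c (c x) = x)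
    (hcs : c (algebraMap K (AlgebraicClosure K) s) = -algebraMap K (AlgebraicClosure K) s)
    (κ : AbsGal K → AbsGal K)
    (hκ : ∀ (σ : AbsGal K) (x : AlgebraicClosure K), κ σ x = c (σ (c x)))
    (T : Finset ℕ) (hT : ∀ l ∈ T, l.Prime ∧ l ≠ 2)
    (R : ℕ → Ideal (𝓞 (AlgebraicClosure K)))
    (hR : ∀ l ∈ T, (R l).IsPrime ∧ (l : 𝓞 (AlgebraicClosure K)) ∈ R l)
    (E : Type w) [NormedField E] [NormedAlgebra ℚ_[2] E] [FiniteDimensional ℚ_[2] E] (n : ℕ)
    (ρ ρ' : AbsGal K →* Matrix (Fin n) (Fin n) E) (b b' : Matrix (Fin n) (Fin n) E)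
    (hρ : IsDualRep (inT K T) (cyclo E) κ ρ b) (hρ' : IsDualRep (inT K T) (cyclo E) κ ρ' b')
    (hb : b.det ≠ 0) (hb' : b'.det ≠ 0) (hch : CongruentPoly ρ ρ')
    (hloc : CongruentAt D T R ρ ρ' b b')
    (L L' : Submodule E (stabD P → Fin n → E))
    (hL : Between (coboundaries (fun σ : stabD P => ρ σ)) L (Parity.cocycles (fun σ : stabD P => ρ σ)))
    (hL' : Between (coboundaries (fun σ : stabD P => ρ' σ)) L'
      (Parity.cocycles (fun σ : stabD P => ρ' σ))) :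
    IsFinSelmer (inertiaOffTwo K) (cyclo E) κ ρ b (stabD P) L ∧
    IsFinSelmer (inertiaOffTwo K) (cyclo E) κ ρ' b' (stabD P) L' ∧
    (selmerNumber (inertiaOffTwo K) (cyclo E) κ ρ b (stabD P) L + localNumber D T R ρ ≡
      selmerNumber (inertiaOffTwo K) (cyclo E) κ ρ' b' (stabD P) L' + localNumber D T R ρ'
        [MOD 2]) := by
  rcases hloc with hloc | ⟨Λ, hΛ, hloc⟩
  swap
  · exact CP.finalR K hK D hD hD8 s hs P hP hP2 c hc hcs κ hκ T hT R hR E n ρ ρ' b b' hρ hρ' Λ hΛ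
      hloc L L' hL hL'
  let κ' : AbsGal K →* AbsGal K := MonoidHom.mk' κ fun g h => by
    ext x
    rw [hκ, AlgEquiv.mul_apply, AlgEquiv.mul_apply, hκ, hκ, hc]
  have hκκ : ∀ g, κ' (κ' g) = g := GA.kap_kap (s := s) (κ := κ') ⟨hc, hcs⟩ hκ
  obtain ⟨E', i1, i2, i3, ι, A, A', B, B', hG⟩ := exists_goodP (κ := κ') (χ := cyc) hκκ
    PA.isChar_cyc.odd (KR.small_full (KR.isFull_K T) hρ.cont hρ.unram)
    (KR.small_full (KR.isFull_K T) hρ'.cont hρ'.unram) hb hb' hρ.symm hρ'.symm hρ.dual hρ'.dual hch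
  obtain ⟨d, β, h⟩ := exists_finExt ι
  have hΛ := isCongruent_of hG
  have hρ₁ := cj_dual hG.one.inv' hG.one.inv (isDualRep_fin (χ := cyc) ι hρ)
  have hρ₁' := cj_dual hG.two.inv' hG.two.inv (isDualRep_fin (χ := cyc) ι hρ')
  obtain ⟨k1, k2, k3⟩ := CP.finalR K hK D hD hD8 s hs P hP hP2 c hc hcs κ hκ T hT R hR E' n
    (cj hG.one.inv' hG.one.inv (mapRep ι ρ)) (cj hG.two.inv' hG.two.inv (mapRep ι ρ')) _ _ hρ₁ hρ₁'
    _ hΛ (fun l hl hlD => Or.inl ⟨cj_semi _ _ ((ER.semi_ext ι).2 (hloc l hl hlD).1),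
      cj_semi _ _ ((ER.semi_ext ι).2 (hloc l hl hlD).2)⟩) (cjL A (h.ext L)) (cjL B (h.ext L'))
    (cj_between _ _ (between_ext h hL)) (cj_between _ _ (between_ext h hL'))
  obtain ⟨f1, f2⟩ := back (χ := cyc) h _ _ hL k1
  obtain ⟨f1', f2'⟩ := back (χ := cyc) h _ _ hL' k2
  refine ⟨f1, f1', ?_⟩
  have e1 := f2
  have e2 := f2'
  rw [local_eq, local_eq] at k3
  have k4 : (selmerNumber (inertiaOffTwo K) (fun g => toE E' (cyc g)) κ
      (cj hG.one.inv' hG.one.inv (mapRep ι ρ)) (Aᵀ * b.map ι * A) (stabD P) (cjL A (h.ext L)) +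
        localNumber D T R ρ ≡
      selmerNumber (inertiaOffTwo K) (fun g => toE E' (cyc g)) κ
      (cj hG.two.inv' hG.two.inv (mapRep ι ρ')) (Bᵀ * b'.map ι * B) (stabD P) (cjL B (h.ext L')) +
        localNumber D T R ρ' [MOD 2]) := k3
  rw [e1, e2] at k4
  exact k4

end Pool.Agent.Work.MP_787500_nt.RP
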